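import Mathlib
import Pool.Agent.Q18.RS.Rat
import Pool.Agent.TH949.TX.Euler

/-! Signed sums at every scale: a generic version for systems of primes with norms. -/

set_option autoImplicit false

open Complex MeasureTheory Set Filter Topology
open Pool.Agent.W189.TP (DS DS_diff DS_norm_le summ_mono)
open Pool.Agent.TH949.TX (AA main_sum)
open Pool.Agent.Q18.RS (ds_neg order_ne_top to_window)

namespace Pool.Agent.Q12.WN

variable {P : Type*} {q : P → ℝ}

/-- `k log q(p)` -/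
noncomputable def LG (q : P → ℝ) (y : P × ℕ) : ℝ := ((y.2 : ℝ) + 1) * Real.log (q y.1)

/-- the norms of the elements of `P` -/
structure PSys (q : P → ℝ) : Prop where
  two_le : ∀ p, 2 ≤ q p
  summ : ∀ σ : ℝ, 1 < σ → Summable fun p => q p ^ (-σ)

theorem PSys.pos (hq : PSys q) (p : P) : 0 < q p := by linarith [hq.two_le p]

theorem PSys.one_lt (hq : PSys q) (p : P) : 1 < q p := by linarith [hq.two_le p]

theorem LG_nonneg (hq : PSys q) (y : P × ℕ) : 0 ≤ LG q y :=
  mul_nonneg (by positivity) (Real.log_nonneg (hq.one_lt y.1).le)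

theorem rexp_LG (hq : PSys q) (t : ℝ) (y : P × ℕ) : Real.exp (-(t * LG q y)) = (q y.1 ^ (-t)) ^ (y.2 + 1) := by
  rw [Real.rpow_def_of_pos (hq.pos y.1), ← Real.exp_nat_mul]
  congr 1
  unfold LG
  push_cast
  ring

theorem cexp_LG (s : ℂ) (y : P × ℕ) : cexp (-(s * LG q y)) = cexp (-(s * Real.log (q y.1))) ^ (y.2 + 1) := by
  rw [← Complex.exp_nat_mul]
  congr 1
  unfold LG
  push_cast
  ring

theorem q_fin (hq : PSys q) (x : ℝ) : {p | q p ≤ x}.Finite := by
  by_cases hx : 0 < x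
  · have h1 := (hq.summ 2 (by norm_num)).tendsto_cofinite_zero
    have h2 := h1.eventually (gt_mem_nhds (show (0 : ℝ) < x ^ (-2 : ℝ) by positivity))
    rw [eventually_cofinite] at h2
    refine h2.subset fun p hp => ?_
    have hp' : q p ≤ x := hp
    simp only [mem_setOf_eq, not_lt]
    exact Real.rpow_le_rpow_of_nonpos (hq.pos p) hp' (by norm_num)
  · refine Set.finite_empty.subset fun p hp => ?_
    have hp' : q p ≤ x := hp
    exact absurd ((hq.pos p).trans_le hp') hx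

theorem LG_le (hq : PSys q) {x : ℝ} (hx : 0 < x) (p : P) : LG q (p, 0) ≤ Real.log x ↔ q p ≤ x := by
  unfold LG
  simp only [Nat.cast_zero, zero_add, one_mul]
  exact Real.log_le_log_iff (hq.pos p) hx

theorem LG_fin (hq : PSys q) (u : ℝ) : {y : P × ℕ | LG q y ≤ u}.Finite := by
  have hlog2 : 0 < Real.log 2 := Real.log_pos (by norm_num)
  refine ((q_fin hq (Real.exp u)).prod (Set.finite_Iic ⌊u / Real.log 2⌋₊)).subset ?_
  rintro ⟨p, k⟩ hy
  have hl : Real.log 2 ≤ Real.log (q p) := Real.log_le_log (by norm_num) (hq.two_le p)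
  have hy' : ((k : ℝ) + 1) * Real.log (q p) ≤ u := hy
  have hk : (0 : ℝ) ≤ k := Nat.cast_nonneg _
  constructor
  · show q p ≤ Real.exp u
    rw [← Real.log_le_iff_le_exp (hq.pos p)]
    nlinarith
  · show k ≤ _
    refine Nat.le_floor ?_
    rw [le_div_iff₀ hlog2]
    nlinarith

/-- the weight of the higher prime powers -/
noncomputable def hp (q : P → ℝ) (σ : ℝ) (y : P × ℕ) : ℝ := if y.2 = 0 then 0 else Real.exp (-(σ / 2 * LG q y))

theorem hp_nonneg (σ : ℝ) (y : P × ℕ) : 0 ≤ hp q σ y := by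
  unfold hp
  split_ifs
  · exact le_rfl
  · positivity

theorem hp_summable (hq : PSys q) {σ : ℝ} (hσ : 1 < σ) : Summable (hp q σ) := by
  have hr0 : 0 < (2 : ℝ) ^ (-(σ / 2)) := by positivity
  have hr1 : (2 : ℝ) ^ (-(σ / 2)) < 1 := Real.rpow_lt_one_of_one_lt_of_neg (by norm_num) (by linarith)
  have h1 : Summable fun k : ℕ => ((2 : ℝ) ^ (-(σ / 2))) ^ k * ((2 : ℝ) ^ (-(σ / 2)))⁻¹ :=
    (summable_geometric_of_lt_one hr0.le hr1).mul_right _
  have h2 := (hq.summ σ hσ).mul_of_nonneg h1 (fun v => by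
    have := (hq.pos v).le
    positivity) (fun k => by positivity)
  refine Summable.of_nonneg_of_le (hp_nonneg σ) (fun y => ?_) h2
  obtain ⟨v, k⟩ := y
  unfold hp
  simp only
  have hq2 : (2 : ℝ) ≤ q v := hq.two_le v
  have hq0 : (0 : ℝ) < q v := hq.pos v
  split_ifs with hk
  · positivity
  · obtain ⟨j, rfl⟩ : ∃ j, k = j + 1 := ⟨k - 1, by omega⟩
    have e1 : Real.exp (-(σ / 2 * LG q (v, j + 1))) = q v ^ (-σ) * (q v ^ (-(σ / 2))) ^ j := by
      rw [rexp_LG hq]
      show (q v ^ (-(σ / 2))) ^ (j + 1 + 1) = _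
      rw [pow_succ, pow_succ, mul_assoc, ← Real.rpow_add hq0, mul_comm]
      congr 2
      ring
    have e2 : ((2 : ℝ) ^ (-(σ / 2))) ^ (j + 1) * ((2 : ℝ) ^ (-(σ / 2)))⁻¹ = ((2 : ℝ) ^ (-(σ / 2))) ^ j := by
      rw [pow_succ, mul_assoc, mul_inv_cancel₀ hr0.ne', mul_one]
    rw [e1, e2]
    refine mul_le_mul_of_nonneg_left ?_ (by positivity)
    exact pow_le_pow_left₀ (by positivity) (Real.rpow_le_rpow_of_nonpos (by norm_num) hq2 (by linarith)) j

open scoped Classical in
/-- the higher prime powers contribute little -/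
theorem AA_split (hq : PSys q) {e : P × ℕ → ℝ} {H : ℝ} (hH : 0 ≤ H) (he : ∀ y, e y ≤ H) {σ : ℝ} (hσ : 1 < σ) {x : ℝ}
    (hx : 1 ≤ x) : AA e (LG q) (Real.log x) ≤ (∑' v, if q v ≤ x then e (v, 0) else 0) +
      x ^ (σ / 2) * (H * ∑' y, hp q σ y) := by
  have hx0 : 0 < x := by linarith
  set f : P × ℕ → ℝ := fun y => if LG q y ≤ Real.log x then e y else 0 with hf
  have hfin : Summable f := summable_of_finite_support ((LG_fin hq (Real.log x)).subset fun y hy => by
    by_contra h2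
    apply hy
    rw [hf]
    simp only
    exact if_neg h2)
  set A : Set (P × ℕ) := {y | y.2 = 0} with hA
  have h1 : f = fun y => A.indicator f y + Aᶜ.indicator f y := by
    funext y
    exact (congrFun (Set.indicator_self_add_compl A f) y).symm
  have e0 : AA e (LG q) (Real.log x) = ∑' y, f y := rfl
  have e1 : ∑' y, f y = ∑' y, A.indicator f y + ∑' y, Aᶜ.indicator f y := by
    conv_lhs => rw [h1]
    exact (hfin.indicator A).tsum_add (hfin.indicator Aᶜ)
  rw [e0, e1]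
  refine add_le_add (le_of_eq ?_) ?_
  · have hg : Function.Injective (fun v : P => ((v, 0) : P × ℕ)) := fun a b h => (Prod.mk.inj h).1
    rw [← hg.tsum_eq]
    · refine tsum_congr fun v => ?_
      rw [Set.indicator_of_mem (show ((v, 0) : P × ℕ) ∈ A from rfl), hf]
      simp only [LG_le hq hx0]
    · intro y hy
      have h2 : y ∈ A := by
        by_contra h3
        exact hy (Set.indicator_of_notMem h3 f)
      exact ⟨y.1, Prod.ext rfl (Eq.symm h2)⟩
  · rw [← tsum_mul_left, ← tsum_mul_left]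
    refine (hfin.indicator Aᶜ).tsum_le_tsum (fun y => ?_) (((hp_summable hq hσ).mul_left _).mul_left _)
    by_cases hy : y ∈ A
    · rw [Set.indicator_of_notMem (Set.notMem_compl_iff.2 hy)]
      exact mul_nonneg (by positivity) (mul_nonneg hH (hp_nonneg σ y))
    · rw [Set.indicator_of_mem (show y ∈ Aᶜ from hy), hf]
      simp only
      unfold hp
      rw [if_neg (show ¬ y.2 = 0 from hy)]
      split_ifs with h2
      · refine (he y).trans ?_
        rw [Real.rpow_def_of_pos hx0, mul_left_comm, ← Real.exp_add]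
        refine le_mul_of_one_le_right hH (Real.one_le_exp ?_)
        have : 0 < σ / 2 := by linarith
        nlinarith
      · positivity

open scoped Classical in
/-- from the signed sum over the prime powers to the one over the primes -/
theorem primesG (hq : PSys q) {e : P × ℕ → ℝ} {H : ℝ} (hH : 0 ≤ H) (he : ∀ y, e y ≤ H) {c a B : ℝ} (A : ℝ)
    (hc : 1 / 2 ≤ c) (hca : c < a) (h : ∀ lam : ℝ, 0 < lam → lam ≤ 1 → ∀ᶠ Y : ℝ in atTop, ∃ u : ℝ,
      |u - Y| ≤ lam * Y ∧ Real.exp (a * u) ≤ AA e (LG q) u) {δ : ℝ} (hδ : 0 < δ) :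
    ∀ᶠ X : ℝ in atTop, ∃ x : ℝ, X ^ (1 - δ) ≤ x ∧ x ≤ X ∧
      A * x ^ c + B ≤ ∑' v, (if q v ≤ x then e (v, 0) else 0) := by
  set σ : ℝ := c + a with hσ
  have hσ1 : 1 < σ := by rw [hσ]; linarith
  set M : ℝ := H * ∑' y, hp q σ y with hM
  have hM0 : 0 ≤ M := mul_nonneg hH (tsum_nonneg fun y => hp_nonneg σ y)
  have hbig : ∀ᶠ x : ℝ in atTop, A * x ^ c + B + x ^ (σ / 2) * M ≤ x ^ a := by
    have h1 : Tendsto (fun x : ℝ => x ^ (a - σ / 2)) atTop atTop := tendsto_rpow_atTop (by rw [hσ]; linarith)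
    filter_upwards [h1.eventually_ge_atTop (|A| + |B| + M), eventually_ge_atTop 1] with x h2 h3
    have hx0 : 0 < x := by linarith
    have e1 : x ^ a = x ^ (a - σ / 2) * x ^ (σ / 2) := by
      rw [← Real.rpow_add hx0]
      congr 1
      ring
    have e2 : x ^ c ≤ x ^ (σ / 2) := Real.rpow_le_rpow_of_exponent_le h3 (by rw [hσ]; linarith)
    have e3 : 1 ≤ x ^ (σ / 2) := Real.one_le_rpow h3 (by linarith)
    have e4 : B ≤ |B| * x ^ (σ / 2) := by
      have := le_abs_self B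
      have := abs_nonneg B
      nlinarith
    have e5 : A * x ^ c ≤ |A| * x ^ (σ / 2) :=
      mul_le_mul (le_abs_self A) e2 (Real.rpow_nonneg hx0.le _) (abs_nonneg A)
    rw [e1]
    nlinarith
  filter_upwards [to_window h hδ ((eventually_ge_atTop 1).and hbig)] with X hX
  obtain ⟨x, h1, h2, ⟨h3, h4⟩, h5⟩ := hX
  refine ⟨x, h1, h2, ?_⟩
  have h6 := AA_split hq hH he hσ1 h3
  linarith

/-- large exponents: only one singularity is needed -/
theorem sum_neg_c {ι : Type*} [Countable ι] {d L : ι → ℝ} (hL : ∀ i, 0 ≤ L i)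
    (habs : ∀ t : ℝ, 1 < t → Summable fun i => |d i| * Real.exp (-(t * L i)))
    {F : ℂ → ℂ} (hF : MeromorphicOn F univ) (hE : ∀ s : ℂ, 1 < s.re → F s = cexp (DS d L s)) {c : ℝ} (hc0 : 0 ≤ c)
    (hreal : ∀ x : ℝ, c < x → 0 ≤ meromorphicOrderAt F (x : ℂ))
    {ρ : ℂ} (hρ : c < ρ.re) (ho : meromorphicOrderAt F ρ ≠ 0) :
    ∃ a : ℝ, c < a ∧ ∀ lam : ℝ, 0 < lam → lam ≤ 1 → ∀ᶠ Y : ℝ in atTop, ∃ u : ℝ, |u - Y| ≤ lam * Y ∧
      Real.exp (a * u) ≤ AA (fun i => -d i) L u := by
  refine ⟨(c + ρ.re) / 2, by linarith, fun lam hlam hlam1 => ?_⟩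
  refine main_sum (d := fun i => -d i) (F := F⁻¹) hL (fun t ht => ?_) hF.inv (fun s hs => ?_)
    (by linarith) (fun x hx => ?_) ⟨ρ, by linarith, ?_⟩ hlam hlam1
  · simpa only [abs_neg] using habs t ht
  · rw [Pi.inv_apply, hE s hs, ds_neg, Complex.exp_neg]
  · rw [meromorphicOrderAt_inv]
    have h6 := hreal x (by linarith)
    cases h7 : meromorphicOrderAt F (x : ℂ) with
    | top => exact absurd h7 (order_ne_top hL habs hF hE _)
    | coe m =>
      rw [h7] at h6
      have h8 : 0 ≤ m := by exact_mod_cast h6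
      have h9 : (-(m : WithTop ℤ)) = ((-m : ℤ) : WithTop ℤ) := rfl
      rw [h9]
      exact_mod_cast (by omega : -m ≤ 0)
  · rw [meromorphicOrderAt_inv]
    intro h6
    apply ho
    cases h7 : meromorphicOrderAt F ρ with
    | top => rw [h7] at h6; exact absurd h6 (by simp)
    | coe m =>
      rw [h7] at h6
      have h9 : (-(m : WithTop ℤ)) = ((-m : ℤ) : WithTop ℤ) := rfl
      rw [h9] at h6
      have h10 : -m = 0 := by exact_mod_cast h6
      have h11 : m = 0 := by omega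
      rw [h11]
      rfl

/-- order of a quotient of entire functions at a point where the denominator does not vanish -/
theorem ord_quot {U V : ℂ → ℂ} (hU : Differentiable ℂ U) (hV : Differentiable ℂ V) {x : ℂ} (hx : V x ≠ 0) :
    0 ≤ meromorphicOrderAt (fun s => U s / V s) x ∧ (U x = 0 → meromorphicOrderAt (fun s => U s / V s) x ≠ 0) := by
  have h1 : AnalyticAt ℂ (fun s => U s / V s) x := (hU.analyticAt x).div (hV.analyticAt x) hx
  refine ⟨h1.meromorphicOrderAt_nonneg, fun h2 => ?_⟩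
  rw [h1.meromorphicOrderAt_eq]
  have h4 : analyticOrderAt (fun s => U s / V s) x ≠ 0 :=
    h1.analyticOrderAt_ne_zero.2 (show U x / V x = 0 by rw [h2, zero_div])
  intro h5
  cases h6 : analyticOrderAt (fun s => U s / V s) x with
  | top => rw [h6] at h5; exact absurd h5 (by simp)
  | coe k =>
    rw [h6] at h5 h4
    apply h4
    have h7 : ((k : ℤ) : WithTop ℤ) = 0 := h5
    have h8 : (k : ℤ) = 0 := by exact_mod_cast h7
    have h9 : k = 0 := by exact_mod_cast h8
    rw [h9]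
    rfl

open scoped Classical in
/-- **The signed sum at every scale, for a quotient of entire functions with a real zero.** -/
theorem windows [Countable P] (hq : PSys q) {d : P × ℕ → ℝ} {H : ℝ} (hH : 0 ≤ H) (hd : ∀ y, -d y ≤ H)
    (habs : ∀ t : ℝ, 1 < t → Summable fun y => |d y| * Real.exp (-(t * LG q y)))
    {U V : ℂ → ℂ} (hU : Differentiable ℂ U) (hV : Differentiable ℂ V) (hV1 : ∀ s : ℂ, 1 < s.re → V s ≠ 0)
    (hUV : ∀ s : ℂ, 1 < s.re → U s = V s * cexp (DS d (LG q) s)) {c : ℝ} (hc : 1 / 2 ≤ c)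
    (hVr : ∀ x : ℝ, c < x → V (x : ℂ) ≠ 0) {ρ : ℂ} (hρ : c < ρ.re)
    (ho : meromorphicOrderAt (fun s => U s / V s) ρ ≠ 0) {δ : ℝ} (hδ : 0 < δ) (A B : ℝ) :
    ∀ᶠ X : ℝ in atTop, ∃ x : ℝ, X ^ (1 - δ) ≤ x ∧ x ≤ X ∧
      A * x ^ c + B ≤ ∑' v, (if q v ≤ x then -d (v, 0) else 0) := by
  have hF : MeromorphicOn (fun s => U s / V s) univ := fun s _ =>
    (hU.analyticAt s).meromorphicAt.div (hV.analyticAt s).meromorphicAt
  have hE : ∀ s : ℂ, 1 < s.re → (fun s => U s / V s) s = cexp (DS d (LG q) s) := fun s hs => by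
    show U s / V s = _
    rw [hUV s hs, mul_div_cancel_left₀ _ (hV1 s hs)]
  obtain ⟨a, ha, h⟩ := sum_neg_c (LG_nonneg hq) habs hF hE (by linarith) (fun x hx => (ord_quot hU hV (hVr x hx)).1) hρ ho
  exact primesG hq hH hd A hc ha h hδ

end Pool.Agent.Q12.WN
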