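import Mathlib
import Pool.Agent.Q12.WN.Eng

/-! Signed sums with weights at every scale: removing a local factor. -/

set_option autoImplicit false

open Complex MeasureTheory Set Filter Topology
open Pool.Agent.W189.TP (DS DS_diff DS_norm_le summ_mono)
open Pool.Agent.TH949.TX (AA main_sum euler_hasSum)
open Pool.Agent.Q18.RS (ds_neg order_ne_top to_window)

namespace Pool.Agent.Q12.WN

variable {P : Type*} {q : P → ℝ} {ι : Type*} [Fintype ι] {n : ℕ}

/-- the numerator of the local factor -/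
noncomputable def LA (z : ι → ℂ) (a : Fin n → ℂ) (Z : ℂ) : ℂ :=
  ∏ j, ∏ x : Fin n × Fin n, (1 - a x.1 * (starRingEnd ℂ) (a x.2) * (z j * Z))

/-- the denominator of the local factor -/
noncomputable def LB (z : ι → ℂ) (Z : ℂ) : ℂ := ∏ j, (1 - z j * Z)

theorem LB_ne {z : ι → ℂ} (hz : ∀ j, ‖z j‖ ≤ 1) {Z : ℂ} (hZ : ‖Z‖ < 1) : LB z Z ≠ 0 := by
  unfold LB
  rw [Finset.prod_ne_zero_iff]
  intro j _ h0
  have h1 : ‖z j * Z‖ < 1 := by
    rw [norm_mul]
    exact lt_of_le_of_lt (mul_le_of_le_one_left (norm_nonneg _) (hz j)) hZ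
  rw [sub_eq_zero] at h0
  rw [← h0, norm_one] at h1
  exact lt_irrefl _ h1

theorem local_exp (r : ℕ) {a : Fin n → ℂ} {z : ι → ℂ} (hz : ∀ j, ‖z j‖ ≤ 1) {w : ℕ → ℝ}
    (hw : ∀ k, ∑ j, z j ^ (k + 1) = (w k : ℂ)) {Z : ℂ} (hZ : ‖Z‖ < 1) (ha : ∀ i, ‖a i‖ ^ 2 * ‖Z‖ < 1) :
    cexp (∑' k : ℕ, ((w k * (‖∑ i, a i ^ (k + 1)‖ ^ 2 - r) / ((k : ℝ) + 1) : ℝ) : ℂ) * Z ^ (k + 1)) * LA z a Z =
      LB z Z ^ r := by
  have hzZ : ∀ j, ‖z j * Z‖ < 1 := fun j => by
    rw [norm_mul]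
    exact lt_of_le_of_lt (mul_le_of_le_one_left (norm_nonneg _) (hz j)) hZ
  have haZ : ∀ j i, ‖a i‖ ^ 2 * ‖z j * Z‖ < 1 := fun j i => by
    refine lt_of_le_of_lt (mul_le_mul_of_nonneg_left ?_ (sq_nonneg _)) (ha i)
    rw [norm_mul]
    exact mul_le_of_le_one_left (norm_nonneg _) (hz j)
  have h1 : ∀ j, HasSum (fun k : ℕ => ((‖∑ i, a i ^ (k + 1)‖ ^ 2 / ((k : ℝ) + 1) : ℝ) : ℂ) * (z j * Z) ^ (k + 1) -
      (r : ℂ) * ((z j * Z) ^ (k + 1) / ((k : ℂ) + 1)))
      ((∑ x : Fin n × Fin n, -Complex.log (1 - a x.1 * (starRingEnd ℂ) (a x.2) * (z j * Z))) -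
        (r : ℂ) * -Complex.log (1 - z j * Z)) := fun j =>
    (euler_hasSum a (haZ j)).sub ((Complex.hasSum_taylorSeries_neg_log' (hzZ j)).mul_left (r : ℂ))
  have h2 := hasSum_sum (s := Finset.univ) fun j _ => h1 j
  have h3 : ∀ k : ℕ, ∑ j, (((‖∑ i, a i ^ (k + 1)‖ ^ 2 / ((k : ℝ) + 1) : ℝ) : ℂ) * (z j * Z) ^ (k + 1) -
      (r : ℂ) * ((z j * Z) ^ (k + 1) / ((k : ℂ) + 1))) =
      ((w k * (‖∑ i, a i ^ (k + 1)‖ ^ 2 - r) / ((k : ℝ) + 1) : ℝ) : ℂ) * Z ^ (k + 1) := by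
    intro k
    have e1 : ∀ j, ((‖∑ i, a i ^ (k + 1)‖ ^ 2 / ((k : ℝ) + 1) : ℝ) : ℂ) * (z j * Z) ^ (k + 1) -
        (r : ℂ) * ((z j * Z) ^ (k + 1) / ((k : ℂ) + 1)) = z j ^ (k + 1) *
        ((((‖∑ i, a i ^ (k + 1)‖ ^ 2 - r) / ((k : ℝ) + 1) : ℝ) : ℂ) * Z ^ (k + 1)) := fun j => by
      rw [mul_pow]
      push_cast
      ring
    rw [Finset.sum_congr rfl fun j _ => e1 j, ← Finset.sum_mul, hw k]
    push_cast
    ring
  simp_rw [h3] at h2
  rw [h2.tsum_eq, Complex.exp_sum]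
  unfold LA LB
  rw [← Finset.prod_mul_distrib, ← Finset.prod_pow]
  refine Finset.prod_congr rfl fun j _ => ?_
  have h4 := hzZ j
  have h5 : 1 - z j * Z ≠ 0 := by
    intro h0
    rw [sub_eq_zero] at h0
    rw [← h0, norm_one] at h4
    exact lt_irrefl _ h4
  rw [Complex.exp_sub, Complex.exp_nat_mul, Complex.exp_neg, Complex.exp_log h5, inv_pow, div_inv_eq_mul,
    Complex.exp_sum, mul_right_comm, ← Finset.prod_mul_distrib]
  refine mul_eq_right₀ (pow_ne_zero r h5) |>.2 (Finset.prod_eq_one fun x _ => ?_)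
  have h6 := Pool.Agent.TH949.TX.norm_prod_lt a (haZ j) x
  have h7 : 1 - a x.1 * (starRingEnd ℂ) (a x.2) * (z j * Z) ≠ 0 := by
    intro h0
    rw [sub_eq_zero] at h0
    rw [← h0, norm_one] at h6
    exact lt_irrefl _ h6
  rw [Complex.exp_neg, Complex.exp_log h7, inv_mul_cancel₀ h7]

/-- the coefficients -/
noncomputable def dco (r : ℕ) (w : P → ℕ → ℝ) (α : P → Fin n → ℂ) (y : P × ℕ) : ℝ :=
  w y.1 y.2 * (‖∑ i, α y.1 i ^ (y.2 + 1)‖ ^ 2 - r) / ((y.2 : ℝ) + 1)

/-- the weights attached to a family of characters, one of them trivial -/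
structure Wt (z : ι → P → ℂ) (w : P → ℕ → ℝ) : Prop where
  le_one : ∀ j p, ‖z j p‖ ≤ 1
  eq : ∀ p k, ∑ j, z j p ^ (k + 1) = (w p k : ℂ)
  nonneg : ∀ p k, 0 ≤ w p k
  triv : ∃ j, ∀ p, z j p = 1

theorem Wt.le {z : ι → P → ℂ} {w : P → ℕ → ℝ} (h : Wt z w) (p : P) (k : ℕ) : w p k ≤ (Fintype.card ι : ℝ) := by
  have h1 := congrArg norm (h.eq p k)
  rw [Complex.norm_real, Real.norm_eq_abs, abs_of_nonneg (h.nonneg p k)] at h1
  rw [← h1]
  refine (norm_sum_le _ _).trans ?_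
  rw [Fintype.card_eq_sum_ones, Nat.cast_sum]
  refine Finset.sum_le_sum fun j _ => ?_
  rw [norm_pow, Nat.cast_one]
  exact pow_le_one₀ (norm_nonneg _) (h.le_one j p)

theorem neg_dco_le (r : ℕ) {z : ι → P → ℂ} {w : P → ℕ → ℝ} (h : Wt z w) (α : P → Fin n → ℂ) (y : P × ℕ) :
    -dco r w α y ≤ (Fintype.card ι : ℝ) * r := by
  have hr : (0 : ℝ) ≤ r := Nat.cast_nonneg _
  refine le_trans ?_ (mul_le_mul_of_nonneg_right (h.le y.1 y.2) hr)
  have hw := h.nonneg y.1 y.2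
  have hk : (0 : ℝ) ≤ y.2 := Nat.cast_nonneg _
  unfold dco
  rw [← neg_div, div_le_iff₀ (by linarith)]
  have h1 : 0 ≤ ‖∑ i, α y.1 i ^ (y.2 + 1)‖ ^ 2 := sq_nonneg _
  nlinarith [mul_nonneg (mul_nonneg hw hr) hk, mul_nonneg hw h1]

/-- the coefficients without the ones at `v` -/
noncomputable def cut (d : P × ℕ → ℝ) (v : P) (x : P × ℕ) : ℝ :=
  open scoped Classical in if x.1 = v then 0 else d x

theorem ds_split {L : P × ℕ → ℝ} {d : P × ℕ → ℝ} (v : P) {s : ℂ}
    (hs : Summable fun x : P × ℕ => (d x : ℂ) * cexp (-(s * L x))) :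
    DS d L s = DS (cut d v) L s + ∑' k : ℕ, (d (v, k) : ℂ) * cexp (-(s * L (v, k))) := by
  classical
  set f : P × ℕ → ℂ := fun x => (d x : ℂ) * cexp (-(s * L x)) with hf
  set A : Set (P × ℕ) := {x | x.1 = v} with hA
  have h1 : f = fun x => A.indicator f x + Aᶜ.indicator f x := by
    funext x
    exact (congrFun (Set.indicator_self_add_compl A f) x).symm
  have e0 : DS d L s = ∑' x, f x := rfl
  rw [e0, h1, (hs.indicator A).tsum_add (hs.indicator Aᶜ), add_comm]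
  congr 1
  · unfold DS
    refine tsum_congr fun x => ?_
    unfold cut
    by_cases hx : x.1 = v
    · rw [if_pos hx, Set.indicator_of_notMem (Set.notMem_compl_iff.2 (show x ∈ A from hx))]
      simp
    · rw [if_neg hx, Set.indicator_of_mem (show x ∈ Aᶜ from hx)]
  · have hg : Function.Injective (fun k : ℕ => ((v, k) : P × ℕ)) := fun a b h => (Prod.mk.inj h).2
    rw [← hg.tsum_eq]
    · refine tsum_congr fun k => ?_
      rw [Set.indicator_of_mem (show ((v, k) : P × ℕ) ∈ A from rfl)]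
    · intro x hx
      have h2 : x ∈ A := by
        by_contra h3
        exact hx (Set.indicator_of_notMem h3 f)
      exact ⟨x.2, Prod.ext (Eq.symm h2) rfl⟩

/-- the trivial bound for the Satake parameters -/
theorem norm_bd (hq : PSys q) {α : P → Fin n → ℂ} (h : ∀ σ : ℝ, 1 < σ → Summable fun x : P × ℕ =>
    ‖∑ i, α x.1 i ^ (x.2 + 1)‖ ^ 2 / ((x.2 : ℝ) + 1) * (q x.1 ^ (-σ)) ^ (x.2 + 1)) (v : P) (i : Fin n)
    {σ : ℝ} (hs : 1 < σ) : ‖α v i‖ ^ 2 * q v ^ (-σ) < 1 := by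
  have hp : (0 : ℝ) < q v := hq.pos v
  have hp1 : (1 : ℝ) < q v := hq.one_lt v
  set t : ℝ := (1 + σ) / 2 with ht
  have ht1 : 1 < t := by rw [ht]; linarith
  have hts : t < σ := by rw [ht]; linarith
  have hC0 : 0 < q v ^ (-t) := by positivity
  have hC1 : q v ^ (-t) < 1 := Real.rpow_lt_one_of_one_lt_of_neg hp1 (by linarith)
  have h1 : Summable fun k : ℕ => (‖∑ i, α v i ^ (k + 1)‖ ^ 2 - 1) / ((k : ℝ) + 1) * (q v ^ (-t)) ^ (k + 1) := by
    have h2 := (h t ht1).comp_injective (i := fun k : ℕ => ((v, k) : P × ℕ))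
      (fun a b hab => (Prod.mk.inj hab).2)
    have hgeo : Summable fun k : ℕ => (q v ^ (-t)) ^ (k + 1) := by
      have := (summable_geometric_of_lt_one hC0.le hC1).mul_right (q v ^ (-t))
      refine this.congr fun k => ?_
      rw [pow_succ]
    have h3 : Summable fun k : ℕ => 1 / ((k : ℝ) + 1) * (q v ^ (-t)) ^ (k + 1) := by
      refine Summable.of_nonneg_of_le (fun k => by positivity) (fun k => ?_) hgeo
      refine mul_le_of_le_one_left (by positivity) ?_
      have := Pool.Agent.TH949.RES.inv_le_one' k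
      rwa [abs_of_nonneg (by positivity)] at this
    refine (h2.sub h3).congr fun k => ?_
    simp only [Function.comp]
    ring
  have h3 := Pool.Agent.TH949.RES.norm_le_one_of_summable h1 hC0 hC1 i
  have h4 : q v ^ (-σ) < q v ^ (-t) := Real.rpow_lt_rpow_of_exponent_lt hp1 (by linarith)
  rcases (sq_nonneg ‖α v i‖).lt_or_eq with h5 | h5
  · calc ‖α v i‖ ^ 2 * q v ^ (-σ) < ‖α v i‖ ^ 2 * q v ^ (-t) := by gcongr
      _ ≤ 1 := h3
  · rw [← h5, zero_mul]
    exact one_pos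

theorem norm_Z (hq : PSys q) (v : P) (s : ℂ) : ‖cexp (-(s * Real.log (q v)))‖ = q v ^ (-s.re) := by
  rw [Complex.norm_exp, Complex.neg_re, Complex.re_mul_ofReal, Real.rpow_def_of_pos (hq.pos v)]
  congr 1
  ring

/-- absolute convergence of the logarithm of the quotient -/
theorem dco_summ (r : ℕ) (hq : PSys q) {z : ι → P → ℂ} {w : P → ℕ → ℝ} (hz : Wt z w) {α : P → Fin n → ℂ}
    (h : ∀ σ : ℝ, 1 < σ → Summable fun x : P × ℕ =>
    ‖∑ i, α x.1 i ^ (x.2 + 1)‖ ^ 2 / ((x.2 : ℝ) + 1) * (q x.1 ^ (-σ)) ^ (x.2 + 1)) {t : ℝ} (ht : 1 < t) :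
    Summable fun y : P × ℕ => |dco r w α y| * Real.exp (-(t * LG q y)) := by
  have h1 : Summable fun y : P × ℕ => (q y.1 ^ (-t)) ^ (y.2 + 1) := by
    have hr0 : 0 < (2 : ℝ) ^ (-t) := by positivity
    have hr1 : (2 : ℝ) ^ (-t) < 1 := Real.rpow_lt_one_of_one_lt_of_neg (by norm_num) (by linarith)
    have h2 := (hq.summ t ht).mul_of_nonneg (summable_geometric_of_lt_one hr0.le hr1) (fun v => by
      have := (hq.pos v).le
      positivity) (fun k => by positivity)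
    refine Summable.of_nonneg_of_le (fun y => ?_) (fun y => ?_) h2
    · have := (hq.pos y.1).le
      positivity
    · have h3 : q y.1 ^ (-t) ≤ (2 : ℝ) ^ (-t) :=
        Real.rpow_le_rpow_of_nonpos (by norm_num) (hq.two_le y.1) (by linarith)
      have h4 : 0 ≤ q y.1 ^ (-t) := Real.rpow_nonneg (hq.pos y.1).le _
      rw [pow_succ, mul_comm]
      exact mul_le_mul_of_nonneg_left (pow_le_pow_left₀ h4 h3 _) h4
  refine Summable.of_nonneg_of_le (fun y => by positivity) (fun y => ?_)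
    (((h t ht).add (h1.mul_left (r : ℝ))).mul_left (Fintype.card ι : ℝ))
  have hp : 0 ≤ (q y.1 ^ (-t)) ^ (y.2 + 1) := pow_nonneg (Real.rpow_nonneg (hq.pos y.1).le _) _
  rw [rexp_LG hq]
  have hk : (0 : ℝ) < (y.2 : ℝ) + 1 := by positivity
  have ht0 : 0 ≤ ‖∑ i, α y.1 i ^ (y.2 + 1)‖ ^ 2 := sq_nonneg _
  have hr : (0 : ℝ) ≤ r := Nat.cast_nonneg _
  have h2 : |dco r w α y| ≤ (Fintype.card ι : ℝ) * (‖∑ i, α y.1 i ^ (y.2 + 1)‖ ^ 2 / ((y.2 : ℝ) + 1) + r) := by
    unfold dco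
    rw [abs_div, abs_mul, abs_of_nonneg (hz.nonneg _ _), abs_of_pos hk, mul_div_assoc]
    refine mul_le_mul (hz.le _ _) ?_ (by positivity) (by positivity)
    rw [div_le_iff₀ hk, add_mul, div_mul_cancel₀ _ hk.ne']
    have h3 : (0 : ℝ) ≤ y.2 := Nat.cast_nonneg _
    have h4 := mul_nonneg hr h3
    rw [abs_le]
    constructor <;> nlinarith
  calc |dco r w α y| * (q y.1 ^ (-t)) ^ (y.2 + 1) ≤
      (Fintype.card ι : ℝ) * (‖∑ i, α y.1 i ^ (y.2 + 1)‖ ^ 2 / ((y.2 : ℝ) + 1) + r) * (q y.1 ^ (-t)) ^ (y.2 + 1) :=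
        mul_le_mul_of_nonneg_right h2 hp
    _ = _ := by ring

theorem cut_summ {d : P × ℕ → ℝ} {L : P × ℕ → ℝ} (v : P) {t : ℝ}
    (h : Summable fun y => |d y| * Real.exp (-(t * L y))) :
    Summable fun y => |cut d v y| * Real.exp (-(t * L y)) := by
  refine Summable.of_nonneg_of_le (fun y => by positivity) (fun y => ?_) h
  unfold cut
  split_ifs
  · rw [abs_zero, zero_mul]
    positivity
  · exact le_rfl

open scoped Classical in
/-- **Weighted signed sums at every scale.** -/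
theorem fam [Countable P] (r : ℕ) (hq : PSys q) {z : ι → P → ℂ} {w : P → ℕ → ℝ} (hz : Wt z w) {α : P → Fin n → ℂ}
    (h0 : ∀ p i, α p i ≠ 0) (hu : ∀ p, ∃ τ : Equiv.Perm (Fin n), ∀ i, α p (τ i) = ((starRingEnd ℂ) (α p i))⁻¹)
    (hsum : ∀ σ : ℝ, 1 < σ → Summable fun x : P × ℕ =>
      ‖∑ i, α x.1 i ^ (x.2 + 1)‖ ^ 2 / ((x.2 : ℝ) + 1) * (q x.1 ^ (-σ)) ^ (x.2 + 1))
    {U V : ℂ → ℂ} (hU : Differentiable ℂ U) (hV : Differentiable ℂ V) (hV1 : ∀ s : ℂ, 1 < s.re → V s ≠ 0)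
    (hUV : ∀ s : ℂ, 1 < s.re → U s = V s * cexp (DS (dco r w α) (LG q) s)) {c : ℝ} (hc : 1 / 2 ≤ c)
    (hVr : ∀ x : ℝ, c < x → V (x : ℂ) ≠ 0)
    (hv : (∃ (p : P) (i : Fin n), c < 2 * |Real.logb (q p) ‖α p i‖|) ∨
      ∃ ρ : ℂ, c < ρ.re ∧ meromorphicOrderAt (fun s => U s / V s) ρ ≠ 0) {δ : ℝ} (hδ : 0 < δ) (A B : ℝ) :
    ∀ᶠ X : ℝ in atTop, ∃ x : ℝ, X ^ (1 - δ) ≤ x ∧ x ≤ X ∧
      A * x ^ c + B ≤ ∑' v, (if q v ≤ x then w v 0 * (r - ‖∑ i, α v i‖ ^ 2) else 0) := by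
  have hr : (0 : ℝ) ≤ r := Nat.cast_nonneg _
  have hd0 : ∀ v : P, -dco r w α (v, 0) = w v 0 * (r - ‖∑ i, α v i‖ ^ 2) := fun v => by
    unfold dco
    simp only [zero_add, pow_one, Nat.cast_zero, div_one]
    ring
  rcases hv with ⟨v, i, hv⟩ | ⟨ρ, hρ, ho⟩
  · have hp0 : (0 : ℝ) < q v := hq.pos v
    have hp1 : (1 : ℝ) < q v := hq.one_lt v
    obtain ⟨i', θ, hθ, hi'⟩ : ∃ (i' : Fin n) (θ : ℝ), c < 2 * θ ∧ ‖α v i'‖ = q v ^ θ := by
      set t : ℝ := Real.logb (q v) ‖α v i‖ with ht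
      have h0' : 0 < ‖α v i‖ := norm_pos_iff.2 (h0 v i)
      have h1 : q v ^ t = ‖α v i‖ := Real.rpow_logb hp0 hp1.ne' h0'
      rcases le_total 0 t with h2 | h2
      · rw [abs_of_nonneg h2] at hv
        exact ⟨i, t, hv, h1.symm⟩
      · rw [abs_of_nonpos h2] at hv
        obtain ⟨τ, hτ⟩ := hu v
        refine ⟨τ i, -t, hv, ?_⟩
        rw [hτ, norm_inv, RCLike.norm_conj, ← h1, Real.rpow_neg hp0.le]
    set Z : ℂ → ℂ := fun s => cexp (-(s * Real.log (q v))) with hZ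
    have hZd : Differentiable ℂ Z := by
      rw [hZ]
      fun_prop
    have hZn : ∀ s : ℂ, 0 < s.re → ‖Z s‖ < 1 := fun s hs => by
      rw [hZ]
      simp only
      rw [norm_Z hq]
      exact Real.rpow_lt_one_of_one_lt_of_neg hp1 (by linarith)
    set zz : ι → ℂ := fun j => z j v with hzz
    have hAd : Differentiable ℂ fun s => LA zz (α v) (Z s) := by
      unfold LA
      fun_prop
    have hBd : Differentiable ℂ fun s => LB zz (Z s) := by
      unfold LB
      fun_prop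
    have hsd : ∀ t : ℝ, 1 < t → Summable fun y : P × ℕ => |dco r w α y| * Real.exp (-(t * LG q y)) :=
      fun t ht => dco_summ r hq hz hsum ht
    obtain ⟨j₀, hj₀⟩ := hz.triv
    have key := windows hq (d := cut (dco r w α) v) (H := (Fintype.card ι : ℝ) * r) (by positivity) (fun y => by
        unfold cut
        split_ifs
        · rw [neg_zero]
          positivity
        · exact neg_dco_le r hz α y) (fun t ht => cut_summ v (hsd t ht))
      (U := fun s => U s * LA zz (α v) (Z s)) (V := fun s => V s * LB zz (Z s) ^ r) (hU.mul hAd) (hV.mul (hBd.pow r))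
      (fun s hs => mul_ne_zero (hV1 s hs) (pow_ne_zero r (LB_ne (fun j => hz.le_one j v) (hZn s (by linarith)))))
      (fun s hs => by
        have h1 := local_exp r (a := α v) (z := zz) (fun j => hz.le_one j v) (w := w v) (fun k => hz.eq v k)
          (Z := Z s) (hZn s (by linarith)) (fun i => by
            rw [hZ]
            simp only
            rw [norm_Z hq]
            exact norm_bd hq hsum v i hs)
        have h2 := ds_split (L := LG q) (d := dco r w α) v (s := s) (by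
          refine Summable.of_norm ((hsd s.re hs).congr fun x => ?_)
          rw [norm_mul, Complex.norm_exp, Complex.norm_real, Real.norm_eq_abs]
          congr 2
          rw [Complex.neg_re, Complex.re_mul_ofReal])
        have h3 : ∑' k : ℕ, (dco r w α (v, k) : ℂ) * cexp (-(s * LG q (v, k))) =
            ∑' k : ℕ, ((w v k * (‖∑ i, α v i ^ (k + 1)‖ ^ 2 - r) / ((k : ℝ) + 1) : ℝ) : ℂ) * Z s ^ (k + 1) := by
          refine tsum_congr fun k => ?_
          rw [cexp_LG]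
          rfl
        rw [h3] at h2
        rw [hUV s hs, h2, Complex.exp_add, ← h1]
        ring) hc
      (fun x hx => mul_ne_zero (hVr x hx) (pow_ne_zero r (LB_ne (fun j => hz.le_one j v) (hZn _ (by
        rw [Complex.ofReal_re]
        linarith)))))
      (ρ := ((2 * θ : ℝ) : ℂ)) (by simpa using hθ) (by
        refine (ord_quot (hU.mul hAd) (hV.mul (hBd.pow r)) ?_).2 ?_
        · exact mul_ne_zero (hVr _ hθ) (pow_ne_zero r (LB_ne (fun j => hz.le_one j v) (hZn _ (by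
            rw [Complex.ofReal_re]
            linarith))))
        · refine mul_eq_zero_of_right _ ?_
          unfold LA
          refine Finset.prod_eq_zero (Finset.mem_univ j₀) (Finset.prod_eq_zero (Finset.mem_univ (i', i')) ?_)
          simp only
          rw [Complex.mul_conj, Complex.normSq_eq_norm_sq, hi', sub_eq_zero, hzz, hZ]
          simp only
          rw [hj₀, one_mul, ← Complex.ofReal_mul, ← Complex.ofReal_neg, ← Complex.ofReal_exp, ← Complex.ofReal_mul]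
          have e1 : (q v ^ θ) ^ 2 * Real.exp (-(2 * θ * Real.log (q v))) = 1 := by
            rw [Real.rpow_def_of_pos hp0, ← Real.exp_nat_mul, ← Real.exp_add]
            rw [show ((2 : ℕ) : ℝ) * (Real.log (q v) * θ) + -(2 * θ * Real.log (q v)) = 0 by push_cast; ring,
              Real.exp_zero]
          rw [e1]
          simp) hδ A (B + w v 0 * ‖∑ i, α v i‖ ^ 2)
    filter_upwards [key] with X hX
    obtain ⟨x, h3, h4, h5⟩ := hX
    refine ⟨x, h3, h4, ?_⟩
    have hfin : ∀ g : P → ℝ, Summable fun p : P => if q p ≤ x then g p else 0 := fun g =>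
      summable_of_finite_support ((q_fin hq x).subset fun p hp => by
        by_contra h7
        exact hp (if_neg h7))
    have hwt : 0 ≤ w v 0 * ‖∑ i, α v i‖ ^ 2 := mul_nonneg (hz.nonneg v 0) (sq_nonneg _)
    have h6 : (∑' p : P, if q p ≤ x then -cut (dco r w α) v (p, 0) else 0) ≤
        (∑' p : P, if q p ≤ x then w p 0 * (r - ‖∑ i, α p i‖ ^ 2) else 0) +
        ∑' p : P, if p = v then w v 0 * ‖∑ i, α v i‖ ^ 2 else 0 := by
      have h7 : Summable fun p : P => if p = v then w v 0 * ‖∑ i, α v i‖ ^ 2 else 0 :=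
        summable_of_finite_support ((Set.finite_singleton v).subset fun p hp => by
          by_contra h8
          exact hp (if_neg h8))
      rw [← (hfin _).tsum_add h7]
      refine (hfin _).tsum_le_tsum (fun p => ?_) ((hfin _).add h7)
      unfold cut
      by_cases hw : p = v
      · subst hw
        simp only [if_true]
        have h8 := mul_nonneg (hz.nonneg p 0) hr
        split_ifs
        · rw [neg_zero, mul_sub]
          linarith
        · linarith
      · rw [if_neg hw]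
        rw [if_neg (show ¬ ((p, 0) : P × ℕ).1 = v from hw), hd0, add_zero]
    rw [tsum_ite_eq] at h6
    linarith
  · have key := windows hq (d := dco r w α) (H := (Fintype.card ι : ℝ) * r) (by positivity) (neg_dco_le r hz α)
      (fun t ht => dco_summ r hq hz hsum ht) hU hV hV1 hUV hc hVr hρ ho hδ A B
    filter_upwards [key] with X hX
    obtain ⟨x, h3, h4, h5⟩ := hX
    refine ⟨x, h3, h4, ?_⟩
    simp_rw [hd0] at h5
    linarith

end Pool.Agent.Q12.WN
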