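import Mathlib
import Pool.Agent.Q12.WN.Fam

/-! Products of twisted `L`-functions. -/

set_option autoImplicit false

open Complex MeasureTheory Set Filter Topology
open Pool.Agent.W189.TP (DS DS_diff DS_norm_le summ_mono)

namespace Pool.Agent.Q12.WN

variable {P : Type*} {q : P → ℝ} {ι : Type*} [Fintype ι] {n : ℕ}

/-- `∑_{p, k} z(p)^k t(p, k) / k q(p)^{-ks}` -/
noncomputable def ser (q : P → ℝ) (z : P → ℂ) (t : P → ℕ → ℝ) (s : ℂ) : ℂ :=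
  ∑' y : P × ℕ, z y.1 ^ (y.2 + 1) * ((t y.1 (y.2 + 1) / ((y.2 : ℝ) + 1) : ℝ) : ℂ) * cexp (-(s * LG q y))

theorem ser_summ {z : P → ℂ} (hz : ∀ p, ‖z p‖ ≤ 1) {t : P → ℕ → ℝ} {s : ℂ}
    (h : Summable fun y : P × ℕ => |t y.1 (y.2 + 1)| / ((y.2 : ℝ) + 1) * Real.exp (-(s.re * LG q y))) :
    Summable fun y : P × ℕ => z y.1 ^ (y.2 + 1) * ((t y.1 (y.2 + 1) / ((y.2 : ℝ) + 1) : ℝ) : ℂ) *
      cexp (-(s * LG q y)) := by
  refine Summable.of_norm_bounded h fun y => ?_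
  rw [norm_mul, norm_mul, norm_pow, Complex.norm_real, Real.norm_eq_abs, Complex.norm_exp, Complex.neg_re,
    Complex.re_mul_ofReal, abs_div, abs_of_nonneg (by positivity : (0 : ℝ) ≤ (y.2 : ℝ) + 1)]
  refine mul_le_mul_of_nonneg_right ?_ (Real.exp_pos _).le
  exact mul_le_of_le_one_left (by positivity) (pow_le_one₀ (norm_nonneg _) (hz y.1))

/-- What is used of a twist: `U` is `(s - 1)^{r e} L(s, Π × Π~ × χ)`, `V` is `(s - 1)^e L(s, χ)`, `e = 1` for the trivial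
character and `e = 0` otherwise, both without the Euler factors outside `P`. -/
structure Tw (q : P → ℝ) (r e : ℕ) (z : P → ℂ) (α : P → Fin n → ℂ) (U V : ℂ → ℂ) : Prop where
  dU : Differentiable ℂ U
  dV : Differentiable ℂ V
  eU : ∀ s : ℂ, 1 < s.re → U s = (s - 1) ^ (e * r) * cexp (ser q z (fun p k => ‖∑ i, α p i ^ k‖ ^ 2) s)
  eV : ∀ s : ℂ, 1 < s.re → V s = (s - 1) ^ e * cexp (ser q z (fun _ _ => 1) s)

theorem one_summ (hq : PSys q) {t : ℝ} (ht : 1 < t) :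
    Summable fun y : P × ℕ => |(1 : ℝ)| / ((y.2 : ℝ) + 1) * Real.exp (-(t * LG q y)) := by
  have h1 : Summable fun y : P × ℕ => (q y.1 ^ (-t)) ^ (y.2 + 1) := by
    have hr0 : 0 < (2 : ℝ) ^ (-t) := by positivity
    have hr1 : (2 : ℝ) ^ (-t) < 1 := Real.rpow_lt_one_of_one_lt_of_neg (by norm_num) (by linarith)
    have h2 := (hq.summ t ht).mul_of_nonneg (summable_geometric_of_lt_one hr0.le hr1) (fun v => by
      have := (hq.pos v).le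
      positivity) (fun k => by positivity)
    refine Summable.of_nonneg_of_le (fun y => ?_) (fun y => ?_) h2
    · have := (hq.pos y.1).le
      positivity
    · have h3 : q y.1 ^ (-t) ≤ (2 : ℝ) ^ (-t) :=
        Real.rpow_le_rpow_of_nonpos (by norm_num) (hq.two_le y.1) (by linarith)
      have h4 : 0 ≤ q y.1 ^ (-t) := Real.rpow_nonneg (hq.pos y.1).le _
      rw [pow_succ, mul_comm]
      exact mul_le_mul_of_nonneg_left (pow_le_pow_left₀ h4 h3 _) h4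
  refine Summable.of_nonneg_of_le (fun y => by positivity) (fun y => ?_) h1
  rw [rexp_LG hq]
  have hp : 0 ≤ (q y.1 ^ (-t)) ^ (y.2 + 1) := pow_nonneg (Real.rpow_nonneg (hq.pos y.1).le _) _
  refine mul_le_of_le_one_left hp ?_
  rw [abs_one, div_le_one (by positivity)]
  have : (0 : ℝ) ≤ y.2 := Nat.cast_nonneg _
  linarith

theorem Tw.V_ne {r e : ℕ} {z : P → ℂ} {α : P → Fin n → ℂ} {U V : ℂ → ℂ} (h : Tw q r e z α U V) {s : ℂ}
    (hs : 1 < s.re) : V s ≠ 0 := by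
  rw [h.eV s hs]
  refine mul_ne_zero (pow_ne_zero _ (sub_ne_zero.2 ?_)) (Complex.exp_ne_zero _)
  rintro rfl
  simp at hs

theorem assemble (r : ℕ) (hq : PSys q) {z : ι → P → ℂ} {w : P → ℕ → ℝ} (hz : Wt z w) {α : P → Fin n → ℂ}
    (hsum : ∀ σ : ℝ, 1 < σ → Summable fun x : P × ℕ =>
      ‖∑ i, α x.1 i ^ (x.2 + 1)‖ ^ 2 / ((x.2 : ℝ) + 1) * (q x.1 ^ (-σ)) ^ (x.2 + 1)) {e : ι → ℕ} {U V : ι → ℂ → ℂ}
    (h : ∀ j, Tw q r (e j) (z j) α (U j) (V j)) {s : ℂ} (hs : 1 < s.re) :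
    ∏ j, U j s = (∏ j, V j s ^ r) * cexp (DS (dco r w α) (LG q) s) := by
  have a1 : Summable fun y : P × ℕ => |‖∑ i, α y.1 i ^ (y.2 + 1)‖ ^ 2| / ((y.2 : ℝ) + 1) *
      Real.exp (-(s.re * LG q y)) := by
    refine (hsum _ hs).congr fun y => ?_
    rw [rexp_LG hq, abs_of_nonneg (sq_nonneg _)]
  have h1 : ∀ j, Summable fun y : P × ℕ => z j y.1 ^ (y.2 + 1) * ((‖∑ i, α y.1 i ^ (y.2 + 1)‖ ^ 2 / ((y.2 : ℝ) + 1) : ℝ) : ℂ) *
      cexp (-(s * LG q y)) := fun j =>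
    ser_summ (q := q) (z := z j) (s := s) (t := fun p k => ‖∑ i, α p i ^ k‖ ^ 2) (fun p => hz.le_one j p) a1
  have h2 : ∀ j, Summable fun y : P × ℕ => z j y.1 ^ (y.2 + 1) * (((1 : ℝ) / ((y.2 : ℝ) + 1) : ℝ) : ℂ) *
      cexp (-(s * LG q y)) := fun j =>
    ser_summ (q := q) (s := s) (t := fun _ _ => 1) (fun p => hz.le_one j p) (one_summ hq hs)
  have h3 : DS (dco r w α) (LG q) s = ∑ j, (ser q (z j) (fun p k => ‖∑ i, α p i ^ k‖ ^ 2) s -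
      (r : ℂ) * ser q (z j) (fun _ _ => 1) s) := by
    have e1 : ∀ j, ser q (z j) (fun p k => ‖∑ i, α p i ^ k‖ ^ 2) s - (r : ℂ) * ser q (z j) (fun _ _ => 1) s =
        ∑' y : P × ℕ, (z j y.1 ^ (y.2 + 1) * ((‖∑ i, α y.1 i ^ (y.2 + 1)‖ ^ 2 / ((y.2 : ℝ) + 1) : ℝ) : ℂ) *
          cexp (-(s * LG q y)) - (r : ℂ) * (z j y.1 ^ (y.2 + 1) * (((1 : ℝ) / ((y.2 : ℝ) + 1) : ℝ) : ℂ) *
            cexp (-(s * LG q y)))) := fun j => by
      rw [(h1 j).tsum_sub ((h2 j).mul_left (r : ℂ)), tsum_mul_left]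
      rfl
    rw [Finset.sum_congr rfl fun j _ => e1 j, ← Summable.tsum_finsetSum fun j _ => (h1 j).sub ((h2 j).mul_left (r : ℂ))]
    unfold DS
    refine tsum_congr fun y => ?_
    have e2 : ∀ j, z j y.1 ^ (y.2 + 1) * ((‖∑ i, α y.1 i ^ (y.2 + 1)‖ ^ 2 / ((y.2 : ℝ) + 1) : ℝ) : ℂ) *
          cexp (-(s * LG q y)) - (r : ℂ) * (z j y.1 ^ (y.2 + 1) * (((1 : ℝ) / ((y.2 : ℝ) + 1) : ℝ) : ℂ) *
            cexp (-(s * LG q y))) = z j y.1 ^ (y.2 + 1) *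
            ((((‖∑ i, α y.1 i ^ (y.2 + 1)‖ ^ 2 - r) / ((y.2 : ℝ) + 1) : ℝ) : ℂ) * cexp (-(s * LG q y))) := fun j => by
      push_cast
      ring
    rw [Finset.sum_congr rfl fun j _ => e2 j, ← Finset.sum_mul, hz.eq]
    unfold dco
    push_cast
    ring
  rw [h3, Complex.exp_sum, ← Finset.prod_mul_distrib]
  refine Finset.prod_congr rfl fun j _ => ?_
  rw [(h j).eU s hs, (h j).eV s hs, Complex.exp_sub, Complex.exp_nat_mul, mul_pow, pow_mul]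
  have := Complex.exp_ne_zero (ser q (z j) (fun _ _ => 1) s)
  field_simp

open scoped Classical in
/-- **Weighted signed sums at every scale**, for a family of twists. -/
theorem twists [Countable P] (r : ℕ) (hq : PSys q) {z : ι → P → ℂ} {w : P → ℕ → ℝ} (hz : Wt z w)
    {α : P → Fin n → ℂ} (h0 : ∀ p i, α p i ≠ 0)
    (hu : ∀ p, ∃ τ : Equiv.Perm (Fin n), ∀ i, α p (τ i) = ((starRingEnd ℂ) (α p i))⁻¹)
    (hsum : ∀ σ : ℝ, 1 < σ → Summable fun x : P × ℕ =>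
      ‖∑ i, α x.1 i ^ (x.2 + 1)‖ ^ 2 / ((x.2 : ℝ) + 1) * (q x.1 ^ (-σ)) ^ (x.2 + 1)) {e : ι → ℕ} {U V : ι → ℂ → ℂ}
    (h : ∀ j, Tw q r (e j) (z j) α (U j) (V j)) {c : ℝ} (hc : 1 / 2 ≤ c)
    (hVr : ∀ j, ∀ x : ℝ, c < x → V j (x : ℂ) ≠ 0)
    (hv : (∃ (p : P) (i : Fin n), c < 2 * |Real.logb (q p) ‖α p i‖|) ∨ (∃ j, ∃ x : ℝ, c < x ∧ U j (x : ℂ) = 0) ∨
      ∃ ρ : ℂ, c < ρ.re ∧ meromorphicOrderAt (fun s => (∏ j, U j s) / ∏ j, V j s ^ r) ρ ≠ 0) {δ : ℝ} (hδ : 0 < δ)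
    (A B : ℝ) :
    ∀ᶠ X : ℝ in atTop, ∃ x : ℝ, X ^ (1 - δ) ≤ x ∧ x ≤ X ∧
      A * x ^ c + B ≤ ∑' v, (if q v ≤ x then w v 0 * (r - ‖∑ i, α v i‖ ^ 2) else 0) := by
  have dU : Differentiable ℂ fun s => ∏ j, U j s := Differentiable.fun_finsetProd fun j _ => (h j).dU
  have dV : Differentiable ℂ fun s => ∏ j, V j s ^ r := Differentiable.fun_finsetProd fun j _ => (h j).dV.pow r
  have hVx : ∀ x : ℝ, c < x → (fun s => ∏ j, V j s ^ r) (x : ℂ) ≠ 0 := fun x hx =>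
    Finset.prod_ne_zero_iff.2 fun j _ => pow_ne_zero r (hVr j x hx)
  refine fam r hq hz h0 hu hsum dU dV (fun s hs => Finset.prod_ne_zero_iff.2 fun j _ =>
    pow_ne_zero r ((h j).V_ne hs)) (fun s hs => assemble r hq hz hsum h hs) hc hVx ?_ hδ A B
  rcases hv with hv | ⟨j, x, hx, hv⟩ | hv
  · exact Or.inl hv
  · refine Or.inr ⟨(x : ℂ), by simpa using hx, (ord_quot dU dV (hVx x hx)).2 ?_⟩
    exact Finset.prod_eq_zero (Finset.mem_univ j) hv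
  · exact Or.inr hv

end Pool.Agent.Q12.WN
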