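import Mathlib
import Pool.Agent.Q12.WN.Fam
import Pool.Agent.Y243.SP.Sph6

/-! Spherical cusp forms on `PGL_n`: signed sums over the primes which split completely in an abelian field. -/

set_option autoImplicit false

namespace Pool.Agent.Q12.WN

open DirichletCharacter Complex Filter
open Pool.Agent.Y243.SP
open Pool.Agent.TH949.RES
open Pool.Agent.W189.TP (DS PS LL LL_nonneg summable_primes_subtype rexp_LL)

theorem psys (S : Finset Nat.Primes) : PSys (fun p : PS S => ((p.1 : ℕ) : ℝ)) :=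
  ⟨fun p => by exact_mod_cast p.1.2.two_le, fun _ hσ => summable_primes_subtype hσ⟩

variable {n : ℕ} {q : ℕ} [NeZero q] {X : Subgroup (DirichletCharacter ℂ q)}

theorem wt_X (X : Subgroup (DirichletCharacter ℂ q)) :
    Wt (ι := {χ // χ ∈ XS X}) (fun χ (p : PS ∅) => pv χ.1 (p.1 : ℕ)) (fun p k => wX X (p.1 : ℕ) (k + 1)) where
  le_one := fun χ p => by
    unfold pv
    exact DirichletCharacter.norm_le_one _ _
  eq := fun p k => by
    rw [← prim_sum X p.1.2 (Nat.succ_ne_zero k)]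
    exact Finset.sum_coe_sort (XS X) (fun χ => pv χ (p.1 : ℕ) ^ (k + 1))
  nonneg := fun p k => wX_nonneg X _ _
  triv := ⟨⟨1, mem_XS.2 X.one_mem⟩, fun p => pv_one⟩

open scoped Classical in
/-- **Spherical cusp forms: the signed sum over the split primes at every scale.** -/
theorem sph_split {α : Nat.Primes → Fin n → ℂ} {μ : Fin n → ℂ} (h : TwistedCuspForm α μ) {c : ℝ} (hc : 1 / 2 ≤ c)
    (hz : ∀ χ ∈ X, ∀ σ : ℝ, c < σ → σ < 1 → LFunction χ σ ≠ 0)
    (hv : (∃ (p : Nat.Primes) (i : Fin n), c < 2 * |Real.logb ((p : ℕ) : ℝ) ‖α p i‖|) ∨ ∃ i, c < 2 * |(μ i).re|)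
    {δ : ℝ} (hδ : 0 < δ) (A : ℝ) :
    ∀ᶠ Y : ℝ in atTop, ∃ x : ℝ, Y ^ (1 - δ) ≤ x ∧ x ≤ Y ∧ A * x ^ c ≤ ∑' p : Nat.Primes,
      if ((p : ℕ) : ℝ) ≤ x ∧ ∀ χ ∈ X, χ ((p : ℕ) : ZMod q) = 1 then 1 - ‖∑ i, α p i‖ ^ 2 else 0 := by
  obtain ⟨G₁, Ξ₁, hG₁, hΞ₁, h1, -, h3, h4⟩ := h.continuation
  obtain ⟨G, Ξ, ω, hG⟩ := h.twists
  have h2 : ∀ (N : ℕ) (χ : DirichletCharacter ℂ N), N ≠ 0 → χ.IsPrimitive → χ ≠ 1 →
      ∀ s : ℂ, 1 < s.re → G N χ s = cexp (Pool.Agent.Y816.GL3R.logE χ (tsq α) s) :=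
    fun N χ a b c => (hG N χ a b c).2.2.2.1
  obtain ⟨w, T, hU⟩ := compU (q := q) h.unitary_real hG₁ hΞ₁ h3 h4
    (G := G) (Ξ := Ξ) (ω := ω) (fun N χ a b c => by
      obtain ⟨x1, x2, x3, x4, x5, x6⟩ := hG N χ a b c
      exact ⟨x1, x2, x3, x5, x6⟩)
  obtain ⟨w', hV⟩ := compV (q := q)
  have hmax : max c (1 / 2) = c := max_eq_left hc
  set U : ℂ → ℂ := fun s => ∏ χ ∈ XS X, GU G₁ G χ s with hUd
  set V : ℂ → ℂ := fun s => ∏ χ ∈ XS X, GV χ s with hVd
  have dU : Differentiable ℂ U := Differentiable.fun_finsetProd fun χ _ => hU.df χ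
  have dV : Differentiable ℂ V := Differentiable.fun_finsetProd fun χ _ => hV.df χ
  have hV0 : ∀ t : ℝ, c < t → V (t : ℂ) ≠ 0 := fun t ht =>
    Finset.prod_ne_zero_iff.2 fun χ hχ => GV_ne (c := c) (by rw [hmax]; exact hz) (mem_XS.1 hχ) (by rw [hmax]; exact ht)
  have hV1 : ∀ s : ℂ, 1 < s.re → V s ≠ 0 := fun s hs => by
    rw [hVd]
    simp only
    rw [prodV hs]
    refine mul_ne_zero (sub_ne_zero.2 ?_) (Complex.exp_ne_zero _)
    rintro rfl
    simp at hs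
  have hUV : ∀ s : ℂ, 1 < s.re → U s = V s * cexp (DS (dco 1 (fun (p : PS ∅) k => wX X (p.1 : ℕ) (k + 1))
      (fun p : PS ∅ => α p.1)) (LG (fun p : PS ∅ => ((p.1 : ℕ) : ℝ))) s) := fun s hs => by
    rw [mul_comm, hUd]
    simp only
    rw [← id_one h.toSphericalCuspForm h1 h2 hs]
    congr 2
    unfold DS
    refine tsum_congr fun x => ?_
    unfold dco dW Wq tn
    rw [Nat.cast_one]
    rfl
  set m : ℕ := (XS X).card with hm
  have hm0 : (0 : ℝ) < m := by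
    exact_mod_cast Finset.card_pos.2 ⟨1, mem_XS.2 X.one_mem⟩
  set B : ℝ := ∑' v : PS ∅, (if (v.1 : ℕ) ∣ q then (m : ℝ) else 0) with hB
  have hsum : ∀ σ : ℝ, 1 < σ → Summable fun x : PS ∅ × ℕ =>
      ‖∑ i, α x.1.1 i ^ (x.2 + 1)‖ ^ 2 / ((x.2 : ℝ) + 1) * ((((x.1.1 : ℕ) : ℝ)) ^ (-σ)) ^ (x.2 + 1) := fun σ hσ => by
    refine (summable_d0 h.toSphericalCuspForm hσ).congr fun x => ?_
    rw [rexp_LL, abs_of_nonneg (d0_nonneg _ x)]
    rfl
  have key := fam (P := PS ∅) 1 (psys ∅) (wt_X X) (α := fun p : PS ∅ => α p.1) (fun p i => h.ne_zero p.1 i)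
    (fun p => h.unitary p.1) hsum dU dV hV1 hUV hc hV0 (by
      rcases hv with ⟨p, i, hv⟩ | ⟨i, hv⟩
      · exact Or.inl ⟨⟨p, Finset.notMem_empty p⟩, i, hv⟩
      · right
        obtain ⟨τ, hτ⟩ := h.unitary_real
        obtain ⟨i, hi⟩ : ∃ i, c < -(2 * (μ i).re) := by
          rcases le_total 0 (μ i).re with h5 | h5
          · rw [abs_of_nonneg h5] at hv
            refine ⟨τ i, ?_⟩
            rw [hτ i]
            simp only [neg_re, conj_re]
            linarith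
          · rw [abs_of_nonpos h5] at hv
            exact ⟨i, by linarith⟩
        set s : ℂ := ((-(2 * (μ i).re) : ℝ) : ℂ) with hsd
        have hsre : s.re = -(2 * (μ i).re) := by rw [hsd, Complex.ofReal_re]
        have e1 := xi_id hG₁ hΞ₁ h3 s
        have e2 : ∏ i, ∏ j, (Gammaℝ (s + (μ i - μ j)))⁻¹ = 0 := by
          refine Finset.prod_eq_zero (Finset.mem_univ i) (Finset.prod_eq_zero (Finset.mem_univ (τ i)) ?_)
          have h3 : s + (μ i - μ (τ i)) = 0 := by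
            rw [hτ i, hsd, sub_neg_eq_add, Complex.add_conj]
            push_cast
            ring
          rw [h3, inv_eq_zero, Gammaℝ_eq_zero_iff]
          exact ⟨0, by simp⟩
        refine ⟨s, by rw [hsre]; exact hi, (ord_quot dU dV (hV0 _ hi)).2 ?_⟩
        rw [e2, mul_zero, mul_eq_zero] at e1
        rcases e1 with e1 | e1
        · rw [e1, Complex.zero_re] at hsre
          linarith
        · refine Finset.prod_eq_zero (mem_XS.2 X.one_mem : (1 : DirichletCharacter ℂ q) ∈ XS X) ?_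
          unfold GU
          rw [if_pos rfl]
          exact e1) hδ (A * m) B
  filter_upwards [key] with Y hY
  obtain ⟨x, h5, h6, h7⟩ := hY
  refine ⟨x, h5, h6, ?_⟩
  set g : Nat.Primes → ℝ := fun p =>
    if ((p : ℕ) : ℝ) ≤ x ∧ ∀ χ ∈ X, χ ((p : ℕ) : ZMod q) = 1 then 1 - ‖∑ i, α p i‖ ^ 2 else 0 with hg
  set e : PS ∅ ≃ Nat.Primes := Equiv.subtypeUnivEquiv fun p => Finset.notMem_empty p with he
  have hge : ∑' p : Nat.Primes, g p = ∑' v : PS ∅, g v.1 := (e.tsum_eq g).symm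
  have hfin : ∀ f : PS ∅ → ℝ, (∀ v, f v ≠ 0 → ((v.1 : ℕ) : ℝ) ≤ x) → Summable f := fun f hf =>
    summable_of_finite_support ((q_fin (psys ∅) x).subset fun v hv => hf v hv)
  have hBs : Summable fun v : PS ∅ => if (v.1 : ℕ) ∣ q then (m : ℝ) else 0 :=
    summable_of_finite_support ((dvd_finite (q := q)).subset fun v hv => by
      by_contra h8
      exact hv (if_neg h8))
  have hgs : Summable fun v : PS ∅ => g v.1 := hfin _ fun v hv => by
    by_contra h8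
    apply hv
    rw [hg]
    simp only
    rw [if_neg fun h9 => h8 h9.1]
  have h8 : (∑' v : PS ∅, if ((v.1 : ℕ) : ℝ) ≤ x then wX X (v.1 : ℕ) (0 + 1) * ((1 : ℕ) - ‖∑ i, α v.1 i‖ ^ 2) else 0) ≤
      (m : ℝ) * ∑' p : Nat.Primes, g p + B := by
    rw [hge, ← tsum_mul_left, hB, ← (hgs.mul_left (m : ℝ)).tsum_add hBs]
    refine Summable.tsum_le_tsum (fun v => ?_) (hfin _ fun v hv => by
      by_contra h8
      exact hv (if_neg h8)) ((hgs.mul_left (m : ℝ)).add hBs)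
    have hw0 := wX_nonneg X (v.1 : ℕ) 1
    have hw1 : wX X (v.1 : ℕ) 1 ≤ m := wX_le X (v.1 : ℕ) 1
    have ht : 0 ≤ ‖∑ i, α v.1 i‖ ^ 2 := sq_nonneg _
    rw [zero_add, Nat.cast_one]
    by_cases hd : (v.1 : ℕ) ∣ q
    · rw [if_pos hd]
      have hg0 : g v.1 = 0 := by
        rw [hg]
        simp only
        rw [if_neg]
        rintro ⟨-, h9⟩
        have h10 := h9 1 X.one_mem
        have h11 : ¬ IsUnit (((v.1 : ℕ)) : ZMod q) := by
          rw [ZMod.isUnit_iff_coprime, Nat.Prime.coprime_iff_not_dvd v.1.2]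
          exact not_not.2 hd
        rw [MulChar.map_nonunit _ h11] at h10
        exact zero_ne_one h10
      rw [hg0, mul_zero, zero_add]
      split_ifs
      · nlinarith
      · exact hm0.le
    · rw [if_neg hd, add_zero, wX_one v.1.2 hd, hg]
      simp only
      by_cases hx : ((v.1 : ℕ) : ℝ) ≤ x
      · by_cases hχ : ∀ χ ∈ X, χ ((v.1 : ℕ) : ZMod q) = 1
        · rw [if_pos hx, if_pos hχ, if_pos ⟨hx, hχ⟩]
        · rw [if_pos hx, if_neg hχ, if_neg fun h9 => hχ h9.2, zero_mul, mul_zero]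
      · rw [if_neg hx, if_neg fun h9 => hx h9.1, mul_zero]
  have h9 : (m : ℝ) * (A * x ^ c) ≤ m * ∑' p : Nat.Primes, g p := by
    have e1 : A * (m : ℝ) * x ^ c = m * (A * x ^ c) := by ring
    rw [e1] at h7
    linarith
  exact le_of_mul_le_mul_left h9 hm0

end Pool.Agent.Q12.WN
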