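import Mathlib
import Pool.Agent.Q12.WN.Asm
import Pool.Agent.Q12.WN.Sph
import Pool.Agent.TH949.TX.Rat4

/-! Rankin-Selberg sums compared with the number of primes, at every scale. -/

set_option autoImplicit false

open Complex MeasureTheory Set Filter Topology
open Pool.Agent.W189.TP (DS DS_diff DS_norm_le summ_mono PS LL LL_nonneg zetaS)
open Pool.Agent.TH949.TX (VV VV_diff VV_real VV_one)

namespace Pool.Agent.Q12.WN

variable {P : Type*} {q : P → ℝ} {ι : Type*} [Fintype ι] {n : ℕ}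

/-- the elements of `P` and the prime numbers -/
noncomputable def q2 (q : P → ℝ) : P ⊕ PS ∅ → ℝ := Sum.elim q fun p => ((p.1 : ℕ) : ℝ)

theorem psys2 (hq : PSys q) : PSys (q2 q) where
  two_le := fun p => by
    rcases p with p | p
    · exact hq.two_le p
    · exact (psys ∅).two_le p
  summ := fun σ hσ => Summable.sum _ (hq.summ σ hσ) ((psys ∅).summ σ hσ)

/-- the coefficients of `log (L(s, Π × Π~ × w) / ζ(s)^R)` -/
noncomputable def d2 (R : ℕ) (w : P → ℕ → ℝ) (α : P → Fin n → ℂ) (y : (P ⊕ PS ∅) × ℕ) : ℝ :=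
  Sum.elim (fun p => w p y.2 * ‖∑ i, α p i ^ (y.2 + 1)‖ ^ 2 / ((y.2 : ℝ) + 1)) (fun _ => -(R : ℝ) / ((y.2 : ℝ) + 1)) y.1

theorem sp_summ {β : Type*} {f : (P ⊕ β) × ℕ → ℝ} (h1 : Summable fun y : P × ℕ => f (Sum.inl y.1, y.2))
    (h2 : Summable fun y : β × ℕ => f (Sum.inr y.1, y.2)) : Summable f := by
  rw [← (Equiv.sumProdDistrib P β ℕ).symm.summable_iff]
  exact Summable.sum _ h1 h2

theorem sp_tsum {β : Type*} {f : (P ⊕ β) × ℕ → ℂ} (h1 : Summable fun y : P × ℕ => f (Sum.inl y.1, y.2))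
    (h2 : Summable fun y : β × ℕ => f (Sum.inr y.1, y.2)) :
    ∑' y, f y = ∑' y : P × ℕ, f (Sum.inl y.1, y.2) + ∑' y : β × ℕ, f (Sum.inr y.1, y.2) := by
  rw [← (Equiv.sumProdDistrib P β ℕ).symm.tsum_eq]
  exact Summable.tsum_sum (f := fun x => f ((Equiv.sumProdDistrib P β ℕ).symm x)) h1 h2

theorem neg_d2_le (R : ℕ) {z : ι → P → ℂ} {w : P → ℕ → ℝ} (h : Wt z w) (α : P → Fin n → ℂ) (y : (P ⊕ PS ∅) × ℕ) :
    -d2 R w α y ≤ R := by
  obtain ⟨p | p, k⟩ := y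
  · have h1 : 0 ≤ w p k * ‖∑ i, α p i ^ (k + 1)‖ ^ 2 / ((k : ℝ) + 1) :=
      div_nonneg (mul_nonneg (h.nonneg p k) (sq_nonneg _)) (by positivity)
    have h2 : (0 : ℝ) ≤ R := Nat.cast_nonneg _
    show -(w p k * ‖∑ i, α p i ^ (k + 1)‖ ^ 2 / ((k : ℝ) + 1)) ≤ R
    linarith
  · show -(-(R : ℝ) / ((k : ℝ) + 1)) ≤ R
    have hk : (0 : ℝ) ≤ k := Nat.cast_nonneg _
    have hR : (0 : ℝ) ≤ R := Nat.cast_nonneg _
    rw [neg_div, neg_neg, div_le_iff₀ (by linarith)]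
    nlinarith

theorem inl_summ (hq : PSys q) {z : ι → P → ℂ} {w : P → ℕ → ℝ} (hz : Wt z w) {α : P → Fin n → ℂ}
    (h : ∀ σ : ℝ, 1 < σ → Summable fun x : P × ℕ =>
    ‖∑ i, α x.1 i ^ (x.2 + 1)‖ ^ 2 / ((x.2 : ℝ) + 1) * (q x.1 ^ (-σ)) ^ (x.2 + 1)) {t : ℝ} (ht : 1 < t) :
    Summable fun y : P × ℕ => |w y.1 y.2 * ‖∑ i, α y.1 i ^ (y.2 + 1)‖ ^ 2 / ((y.2 : ℝ) + 1)| *
      Real.exp (-(t * LG q y)) := by
  refine Summable.of_nonneg_of_le (fun y => by positivity) (fun y => ?_) ((h t ht).mul_left (Fintype.card ι : ℝ))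
  have hp : 0 ≤ (q y.1 ^ (-t)) ^ (y.2 + 1) := pow_nonneg (Real.rpow_nonneg (hq.pos y.1).le _) _
  rw [rexp_LG hq, ← mul_assoc]
  refine mul_le_mul_of_nonneg_right ?_ hp
  rw [abs_of_nonneg (div_nonneg (mul_nonneg (hz.nonneg _ _) (sq_nonneg _)) (by positivity)), mul_div_assoc]
  exact mul_le_mul_of_nonneg_right (hz.le _ _) (by positivity)

theorem d2_summ (R : ℕ) (hq : PSys q) {z : ι → P → ℂ} {w : P → ℕ → ℝ} (hz : Wt z w) {α : P → Fin n → ℂ}
    (h : ∀ σ : ℝ, 1 < σ → Summable fun x : P × ℕ =>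
    ‖∑ i, α x.1 i ^ (x.2 + 1)‖ ^ 2 / ((x.2 : ℝ) + 1) * (q x.1 ^ (-σ)) ^ (x.2 + 1)) {t : ℝ} (ht : 1 < t) :
    Summable fun y : (P ⊕ PS ∅) × ℕ => |d2 R w α y| * Real.exp (-(t * LG (q2 q) y)) := by
  refine sp_summ ?_ ?_
  · exact inl_summ hq hz h ht
  · refine ((one_summ (psys ∅) ht).mul_left (R : ℝ)).congr fun y => ?_
    show (R : ℝ) * (|(1 : ℝ)| / ((y.2 : ℝ) + 1) * Real.exp (-(t * LG _ y))) =
      |-(R : ℝ) / ((y.2 : ℝ) + 1)| * Real.exp (-(t * LG (q2 q) (Sum.inr y.1, y.2)))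
    have hR : (0 : ℝ) ≤ R := Nat.cast_nonneg _
    rw [neg_div, abs_neg, abs_of_nonneg (by positivity : (0 : ℝ) ≤ R / ((y.2 : ℝ) + 1)), abs_one]
    have e1 : LG (q2 q) (Sum.inr y.1, y.2) = LG (fun p : PS ∅ => ((p.1 : ℕ) : ℝ)) y := rfl
    rw [e1]
    ring

/-- What is used of a twist: `U(s) = (s - 1)^e L(s, Π × Π~ × χ)` is entire. -/
structure TwU (q : P → ℝ) (e : ℕ) (z : P → ℂ) (α : P → Fin n → ℂ) (U : ℂ → ℂ) : Prop where
  dU : Differentiable ℂ U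
  eU : ∀ s : ℂ, 1 < s.re → U s = (s - 1) ^ e * cexp (ser q z (fun p k => ‖∑ i, α p i ^ k‖ ^ 2) s)

theorem assemble2 (hq : PSys q) {z : ι → P → ℂ} {w : P → ℕ → ℝ} (hz : Wt z w) {α : P → Fin n → ℂ}
    (hsum : ∀ σ : ℝ, 1 < σ → Summable fun x : P × ℕ =>
      ‖∑ i, α x.1 i ^ (x.2 + 1)‖ ^ 2 / ((x.2 : ℝ) + 1) * (q x.1 ^ (-σ)) ^ (x.2 + 1)) {e : ι → ℕ} {U : ι → ℂ → ℂ}
    (h : ∀ j, TwU q (e j) (z j) α (U j)) {s : ℂ} (hs : 1 < s.re) :
    ∏ j, U j s = VV ∅ s ^ (∑ j, e j) * cexp (DS (d2 (∑ j, e j) w α) (LG (q2 q)) s) := by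
  set R : ℕ := ∑ j, e j with hR
  have a1 : Summable fun y : P × ℕ => |‖∑ i, α y.1 i ^ (y.2 + 1)‖ ^ 2| / ((y.2 : ℝ) + 1) *
      Real.exp (-(s.re * LG q y)) := by
    refine (hsum _ hs).congr fun y => ?_
    rw [rexp_LG hq, abs_of_nonneg (sq_nonneg _)]
  have h1 : ∀ j, Summable fun y : P × ℕ => z j y.1 ^ (y.2 + 1) * ((‖∑ i, α y.1 i ^ (y.2 + 1)‖ ^ 2 / ((y.2 : ℝ) + 1) : ℝ) : ℂ) *
      cexp (-(s * LG q y)) := fun j =>
    ser_summ (q := q) (z := z j) (s := s) (t := fun p k => ‖∑ i, α p i ^ k‖ ^ 2) (fun p => hz.le_one j p) a1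
  have h3 : ∑ j, ser q (z j) (fun p k => ‖∑ i, α p i ^ k‖ ^ 2) s =
      ∑' y : P × ℕ, ((w y.1 y.2 * ‖∑ i, α y.1 i ^ (y.2 + 1)‖ ^ 2 / ((y.2 : ℝ) + 1) : ℝ) : ℂ) * cexp (-(s * LG q y)) := by
    unfold ser
    rw [← Summable.tsum_finsetSum fun j _ => h1 j]
    refine tsum_congr fun y => ?_
    have e2 : ∀ j, z j y.1 ^ (y.2 + 1) * ((‖∑ i, α y.1 i ^ (y.2 + 1)‖ ^ 2 / ((y.2 : ℝ) + 1) : ℝ) : ℂ) *
          cexp (-(s * LG q y)) = z j y.1 ^ (y.2 + 1) *
            (((‖∑ i, α y.1 i ^ (y.2 + 1)‖ ^ 2 / ((y.2 : ℝ) + 1) : ℝ) : ℂ) * cexp (-(s * LG q y))) := fun j => by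
      ring
    rw [Finset.sum_congr rfl fun j _ => e2 j, ← Finset.sum_mul, hz.eq]
    push_cast
    ring
  have h4 : DS (d2 R w α) (LG (q2 q)) s =
      ∑' y : P × ℕ, ((w y.1 y.2 * ‖∑ i, α y.1 i ^ (y.2 + 1)‖ ^ 2 / ((y.2 : ℝ) + 1) : ℝ) : ℂ) * cexp (-(s * LG q y)) -
      (R : ℂ) * ∑' y : PS ∅ × ℕ, ((1 / ((y.2 : ℝ) + 1) : ℝ) : ℂ) * cexp (-(s * LL y)) := by
    have b1 : Summable fun y : P × ℕ => ((w y.1 y.2 * ‖∑ i, α y.1 i ^ (y.2 + 1)‖ ^ 2 / ((y.2 : ℝ) + 1) : ℝ) : ℂ) *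
        cexp (-(s * LG q y)) := by
      refine Summable.of_norm ((inl_summ hq hz hsum hs).congr fun y => ?_)
      rw [norm_mul, Complex.norm_exp, Complex.norm_real, Real.norm_eq_abs]
      congr 2
      rw [Complex.neg_re, Complex.re_mul_ofReal]
    have b2 : Summable fun y : PS ∅ × ℕ => ((-(R : ℝ) / ((y.2 : ℝ) + 1) : ℝ) : ℂ) * cexp (-(s * LL y)) := by
      have b3 := ser_summ (q := fun p : PS ∅ => ((p.1 : ℕ) : ℝ)) (z := fun _ => 1) (s := s) (t := fun _ _ => 1)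
        (fun p => norm_one.le) (one_summ (psys ∅) hs)
      refine (b3.mul_left (-(R : ℂ))).congr fun y => ?_
      have e1 : LG (fun p : PS ∅ => ((p.1 : ℕ) : ℝ)) y = LL y := rfl
      rw [e1]
      push_cast
      ring
    have b4 := sp_tsum (P := P) (β := PS ∅) (f := fun y => ((d2 R w α y : ℝ) : ℂ) * cexp (-(s * LG (q2 q) y))) b1 b2
    unfold DS
    rw [b4, ← tsum_mul_left, sub_eq_add_neg, ← tsum_neg]
    congr 1
    refine tsum_congr fun y => ?_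
    show ((-(R : ℝ) / ((y.2 : ℝ) + 1) : ℝ) : ℂ) * cexp (-(s * LL y)) = _
    push_cast
    ring
  have hs1 : s ≠ 1 := by
    rintro rfl
    simp at hs
  have hV : VV ∅ s = (s - 1) * cexp (∑' y : PS ∅ × ℕ, ((1 / ((y.2 : ℝ) + 1) : ℝ) : ℂ) * cexp (-(s * LL y))) := by
    have hb : Pool.Agent.W189.TP.bad ∅ (fun _ (_ : Fin 1) => (1 : ℂ)) s = 1 := by
      unfold Pool.Agent.W189.TP.bad
      simp
    unfold VV
    rw [Pool.Agent.H437R2.z1_of_ne hs1, hb, mul_one, zetaS hs, Finset.prod_empty, mul_one]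
  have h5 : ∏ j, U j s = (s - 1) ^ R * cexp (∑ j, ser q (z j) (fun p k => ‖∑ i, α p i ^ k‖ ^ 2) s) := by
    rw [Finset.prod_congr rfl fun j _ => (h j).eU s hs, Finset.prod_mul_distrib, Finset.prod_pow_eq_pow_sum,
      Complex.exp_sum]
  rw [h5, h3, hV, mul_pow, h4, Complex.exp_sub, ← Complex.exp_nat_mul]
  have := Complex.exp_ne_zero ((R : ℂ) * ∑' y : PS ∅ × ℕ, ((1 / ((y.2 : ℝ) + 1) : ℝ) : ℂ) * cexp (-(s * LL y)))
  field_simp

open scoped Classical in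
theorem tsum_pi {x : ℝ} (hx : 0 ≤ x) (R : ℝ) :
    (∑' p : PS ∅, if ((p.1 : ℕ) : ℝ) ≤ x then R else 0) = R * (Nat.primeCounting ⌊x⌋₊ : ℝ) := by
  have e : PS ∅ ≃ Nat.Primes := Equiv.subtypeUnivEquiv fun p => Finset.notMem_empty p
  have h1 : (∑' p : PS ∅, if ((p.1 : ℕ) : ℝ) ≤ x then R else 0) =
      ∑' p : Nat.Primes, if ((p : ℕ) : ℝ) ≤ x then R else 0 :=
    (Equiv.subtypeUnivEquiv (α := Nat.Primes) (p := fun p => p ∉ (∅ : Finset Nat.Primes))
      (fun p => Finset.notMem_empty p)).tsum_eq (fun p : Nat.Primes => if ((p : ℕ) : ℝ) ≤ x then R else 0)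
  have h2 : (∑' p : Nat.Primes, if ((p : ℕ) : ℝ) ≤ x then R else 0) =
      ∑' m : ℕ, Set.indicator {m : ℕ | m.Prime} (fun m => if (m : ℝ) ≤ x then R else 0) m :=
    tsum_subtype {m : ℕ | m.Prime} (fun m : ℕ => if (m : ℝ) ≤ x then R else 0)
  rw [h1, h2, tsum_eq_sum (s := Finset.range (⌊x⌋₊ + 1)) fun m hm => ?_]
  · have h3 : ∀ m ∈ Finset.range (⌊x⌋₊ + 1), Set.indicator {m : ℕ | m.Prime} (fun m => if (m : ℝ) ≤ x then R else 0) m =
        if m.Prime then R else 0 := by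
      intro m hm
      rw [Finset.mem_range, Nat.lt_succ_iff, Nat.le_floor_iff hx] at hm
      by_cases hp : m.Prime
      · rw [Set.indicator_of_mem (show m ∈ {m : ℕ | m.Prime} from hp), if_pos hp, if_pos hm]
      · rw [Set.indicator_of_notMem (show m ∉ {m : ℕ | m.Prime} from hp), if_neg hp]
    rw [Finset.sum_congr rfl h3, ← Finset.sum_filter, Finset.sum_const, nsmul_eq_mul, mul_comm]
    congr 2
    rw [Nat.primeCounting, Nat.primeCounting', Nat.count_eq_card_filter_range]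
  · have h4 : ¬ (m : ℝ) ≤ x := by
      rw [← Nat.le_floor_iff hx]
      rw [Finset.mem_range, Nat.lt_succ_iff] at hm
      exact hm
    unfold Set.indicator
    split_ifs
    · exact if_neg h4
    · rfl

open scoped Classical in
/-- **Rankin-Selberg sums compared with the number of primes, at every scale.** -/
theorem vs_pi [Countable P] (hq : PSys q) {z : ι → P → ℂ} {w : P → ℕ → ℝ} (hz : Wt z w)
    {α : P → Fin n → ℂ} (h0 : ∀ p i, α p i ≠ 0)
    (hu : ∀ p, ∃ τ : Equiv.Perm (Fin n), ∀ i, α p (τ i) = ((starRingEnd ℂ) (α p i))⁻¹)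
    (hsum : ∀ σ : ℝ, 1 < σ → Summable fun x : P × ℕ =>
      ‖∑ i, α x.1 i ^ (x.2 + 1)‖ ^ 2 / ((x.2 : ℝ) + 1) * (q x.1 ^ (-σ)) ^ (x.2 + 1)) {e : ι → ℕ} {U : ι → ℂ → ℂ}
    (h : ∀ j, TwU q (e j) (z j) α (U j)) {c : ℝ} (hc : 1 / 2 ≤ c)
    (hv : (∃ (p : P) (i : Fin n), c < 2 * |Real.logb (q p) ‖α p i‖|) ∨ (∃ j, ∃ x : ℝ, c < x ∧ U j (x : ℂ) = 0) ∨
      ∃ ρ : ℂ, c < ρ.re ∧ meromorphicOrderAt (fun s => (∏ j, U j s) / VV ∅ s ^ (∑ j, e j)) ρ ≠ 0) {δ : ℝ} (hδ : 0 < δ)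
    (A : ℝ) :
    ∀ᶠ X : ℝ in atTop, ∃ x : ℝ, X ^ (1 - δ) ≤ x ∧ x ≤ X ∧
      (∑' v, if q v ≤ x then w v 0 * ‖∑ i, α v i‖ ^ 2 else 0) + A * x ^ c ≤
        (∑ j, e j : ℕ) * (Nat.primeCounting ⌊x⌋₊ : ℝ) := by
  set R : ℕ := ∑ j, e j with hR
  have hR0 : (0 : ℝ) ≤ R := Nat.cast_nonneg _
  have dU : Differentiable ℂ fun s => ∏ j, U j s := Differentiable.fun_finsetProd fun j _ => (h j).dU
  have dV : Differentiable ℂ fun s => VV ∅ s ^ R := (VV_diff ∅).pow R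
  have hVx : ∀ x : ℝ, c < x → (fun s => VV ∅ s ^ R) (x : ℂ) ≠ 0 := fun x hx =>
    pow_ne_zero R (VV_real (by linarith))
  have hV1 : ∀ s : ℂ, 1 < s.re → (fun s => VV ∅ s ^ R) s ≠ 0 := fun s hs => pow_ne_zero R (VV_one hs)
  have hsd : ∀ t : ℝ, 1 < t → Summable fun y : (P ⊕ PS ∅) × ℕ => |d2 R w α y| * Real.exp (-(t * LG (q2 q) y)) :=
    fun t ht => d2_summ R hq hz hsum ht
  have hUV : ∀ s : ℂ, 1 < s.re → (fun s => ∏ j, U j s) s = (fun s => VV ∅ s ^ R) s * cexp (DS (d2 R w α) (LG (q2 q)) s) :=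
    fun s hs => assemble2 hq hz hsum h hs
  -- finite sums
  have hfin : ∀ (x : ℝ) (g : P → ℝ), Summable fun p : P => if q p ≤ x then g p else 0 := fun x g =>
    summable_of_finite_support ((q_fin hq x).subset fun p hp => by
      by_contra h7
      exact hp (if_neg h7))
  have hfin2 : ∀ (x : ℝ) (g : PS ∅ → ℝ), Summable fun p : PS ∅ => if ((p.1 : ℕ) : ℝ) ≤ x then g p else 0 := fun x g =>
    summable_of_finite_support ((q_fin (psys ∅) x).subset fun p hp => by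
      by_contra h7
      exact hp (if_neg h7))
  have hsplit : ∀ (x : ℝ), 0 ≤ x → ∀ f : P ⊕ PS ∅ → ℝ, (∀ p, f (Sum.inr p) = R) →
      (∑' v, if q2 q v ≤ x then f v else 0) = (∑' v, if q v ≤ x then f (Sum.inl v) else 0) +
        R * (Nat.primeCounting ⌊x⌋₊ : ℝ) := by
    intro x hx f hf
    rw [← tsum_pi hx]
    have h5 := Summable.tsum_sum (f := fun v : P ⊕ PS ∅ => if q2 q v ≤ x then f v else 0) (hfin x fun p => f (Sum.inl p))
      (hfin2 x fun p => f (Sum.inr p))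
    rw [h5]
    congr 1
    refine tsum_congr fun p => ?_
    rw [hf]
    rfl
  -- the main term
  have hconv : ∀ ρ : ℂ, c < ρ.re → meromorphicOrderAt (fun s => (∏ j, U j s) / VV ∅ s ^ R) ρ ≠ 0 →
      ∀ᶠ X : ℝ in atTop, ∃ x : ℝ, X ^ (1 - δ) ≤ x ∧ x ≤ X ∧
      (∑' v, if q v ≤ x then w v 0 * ‖∑ i, α v i‖ ^ 2 else 0) + A * x ^ c ≤ (R : ℝ) * (Nat.primeCounting ⌊x⌋₊ : ℝ) := by
    intro ρ hρ ho
    have key := windows (psys2 hq) (d := d2 R w α) hR0 (neg_d2_le R hz α) hsd dU dV hV1 hUV hc hVx hρ ho hδ A 0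
    filter_upwards [key, eventually_ge_atTop 1] with X hX hX1
    obtain ⟨x, h3, h4, h5⟩ := hX
    refine ⟨x, h3, h4, ?_⟩
    have hx0 : 0 ≤ x := le_trans (by positivity) h3
    rw [hsplit x hx0 (fun v => -d2 R w α (v, 0)) (fun p => by
      show -(-(R : ℝ) / (((0 : ℕ) : ℝ) + 1)) = R
      simp)] at h5
    have h6 : (∑' v, if q v ≤ x then -d2 R w α (Sum.inl v, 0) else 0) =
        -∑' v, if q v ≤ x then w v 0 * ‖∑ i, α v i‖ ^ 2 else 0 := by
      rw [← tsum_neg]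
      refine tsum_congr fun v => ?_
      split_ifs
      · show -(w v 0 * ‖∑ i, α v i ^ (0 + 1)‖ ^ 2 / (((0 : ℕ) : ℝ) + 1)) = _
        simp
      · simp
    rw [h6] at h5
    linarith
  rcases hv with ⟨v, i, hv⟩ | ⟨j, x, hx, hv⟩ | ⟨ρ, hρ, ho⟩
  · have hp0 : (0 : ℝ) < q v := hq.pos v
    have hp1 : (1 : ℝ) < q v := hq.one_lt v
    obtain ⟨i', θ, hθ, hi'⟩ : ∃ (i' : Fin n) (θ : ℝ), c < 2 * θ ∧ ‖α v i'‖ = q v ^ θ := by
      set t : ℝ := Real.logb (q v) ‖α v i‖ with ht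
      have h0' : 0 < ‖α v i‖ := norm_pos_iff.2 (h0 v i)
      have h1 : q v ^ t = ‖α v i‖ := Real.rpow_logb hp0 hp1.ne' h0'
      rcases le_total 0 t with h2 | h2
      · rw [abs_of_nonneg h2] at hv
        exact ⟨i, t, hv, h1.symm⟩
      · rw [abs_of_nonpos h2] at hv
        obtain ⟨τ, hτ⟩ := hu v
        refine ⟨τ i, -t, hv, ?_⟩
        rw [hτ, norm_inv, RCLike.norm_conj, ← h1, Real.rpow_neg hp0.le]
    set Z : ℂ → ℂ := fun s => cexp (-(s * Real.log (q v))) with hZ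
    have hZd : Differentiable ℂ Z := by
      rw [hZ]
      fun_prop
    have hZn : ∀ s : ℂ, 0 < s.re → ‖Z s‖ < 1 := fun s hs => by
      rw [hZ]
      simp only
      rw [norm_Z hq]
      exact Real.rpow_lt_one_of_one_lt_of_neg hp1 (by linarith)
    set zz : ι → ℂ := fun j => z j v with hzz
    have hAd : Differentiable ℂ fun s => LA zz (α v) (Z s) := by
      unfold LA
      fun_prop
    obtain ⟨j₀, hj₀⟩ := hz.triv
    have key := windows (psys2 hq) (d := cut (d2 R w α) (Sum.inl v)) hR0 (fun y => by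
        unfold cut
        split_ifs
        · rw [neg_zero]
          exact hR0
        · exact neg_d2_le R hz α y) (fun t ht => cut_summ (Sum.inl v) (hsd t ht))
      (U := fun s => (∏ j, U j s) * LA zz (α v) (Z s)) (V := fun s => VV ∅ s ^ R) (dU.mul hAd) dV hV1
      (fun s hs => by
        have h1 := local_exp 0 (a := α v) (z := zz) (fun j => hz.le_one j v) (w := w v) (fun k => hz.eq v k)
          (Z := Z s) (hZn s (by linarith)) (fun i => by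
            rw [hZ]
            simp only
            rw [norm_Z hq]
            exact norm_bd hq hsum v i hs)
        rw [pow_zero] at h1
        have h2 := ds_split (L := LG (q2 q)) (d := d2 R w α) (Sum.inl v) (s := s) (by
          refine Summable.of_norm ((hsd s.re hs).congr fun x => ?_)
          rw [norm_mul, Complex.norm_exp, Complex.norm_real, Real.norm_eq_abs]
          congr 2
          rw [Complex.neg_re, Complex.re_mul_ofReal])
        have h3 : ∑' k : ℕ, (d2 R w α (Sum.inl v, k) : ℂ) * cexp (-(s * LG (q2 q) (Sum.inl v, k))) =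
            ∑' k : ℕ, ((w v k * (‖∑ i, α v i ^ (k + 1)‖ ^ 2 - ((0 : ℕ) : ℝ)) / ((k : ℝ) + 1) : ℝ) : ℂ) * Z s ^ (k + 1) := by
          refine tsum_congr fun k => ?_
          rw [cexp_LG, Nat.cast_zero, sub_zero]
          rfl
        rw [h3] at h2
        have h4 := hUV s hs
        simp only at h4
        rw [h4, h2, Complex.exp_add]
        linear_combination (VV ∅ s ^ R * cexp (DS (cut (d2 R w α) (Sum.inl v)) (LG (q2 q)) s)) * h1) hc hVx
      (ρ := ((2 * θ : ℝ) : ℂ)) (by simpa using hθ) (by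
        refine (ord_quot (dU.mul hAd) dV (hVx _ hθ)).2 ?_
        refine mul_eq_zero_of_right _ ?_
        unfold LA
        refine Finset.prod_eq_zero (Finset.mem_univ j₀) (Finset.prod_eq_zero (Finset.mem_univ (i', i')) ?_)
        simp only
        rw [Complex.mul_conj, Complex.normSq_eq_norm_sq, hi', sub_eq_zero, hzz, hZ]
        simp only
        rw [hj₀, one_mul, ← Complex.ofReal_mul, ← Complex.ofReal_neg, ← Complex.ofReal_exp, ← Complex.ofReal_mul]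
        have e1 : (q v ^ θ) ^ 2 * Real.exp (-(2 * θ * Real.log (q v))) = 1 := by
          rw [Real.rpow_def_of_pos hp0, ← Real.exp_nat_mul, ← Real.exp_add]
          rw [show ((2 : ℕ) : ℝ) * (Real.log (q v) * θ) + -(2 * θ * Real.log (q v)) = 0 by push_cast; ring,
            Real.exp_zero]
        rw [e1]
        simp) hδ A (w v 0 * ‖∑ i, α v i‖ ^ 2)
    filter_upwards [key, eventually_ge_atTop 1] with X hX hX1
    obtain ⟨x, h3, h4, h5⟩ := hX
    refine ⟨x, h3, h4, ?_⟩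
    have hx0 : 0 ≤ x := le_trans (by positivity) h3
    rw [hsplit x hx0 (fun y => -cut (d2 R w α) (Sum.inl v) (y, 0)) (fun p => by
      unfold cut
      rw [if_neg (by simp)]
      show -(-(R : ℝ) / (((0 : ℕ) : ℝ) + 1)) = R
      simp)] at h5
    have hwt : 0 ≤ w v 0 * ‖∑ i, α v i‖ ^ 2 := mul_nonneg (hz.nonneg v 0) (sq_nonneg _)
    have h6 : (∑' p, if q p ≤ x then -cut (d2 R w α) (Sum.inl v) (Sum.inl p, 0) else 0) ≤
        -(∑' p, if q p ≤ x then w p 0 * ‖∑ i, α p i‖ ^ 2 else 0) +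
        ∑' p : P, if p = v then w v 0 * ‖∑ i, α v i‖ ^ 2 else 0 := by
      have h7 : Summable fun p : P => if p = v then w v 0 * ‖∑ i, α v i‖ ^ 2 else 0 :=
        summable_of_finite_support ((Set.finite_singleton v).subset fun p hp => by
          by_contra h8
          exact hp (if_neg h8))
      rw [← tsum_neg, ← (hfin x _).neg.tsum_add h7]
      refine (hfin x _).tsum_le_tsum (fun p => ?_) ((hfin x _).neg.add h7)
      unfold cut
      by_cases hw : p = v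
      · subst hw
        simp only [if_true]
        split_ifs
        · rw [neg_zero]
          linarith
        · linarith
      · rw [if_neg hw]
        rw [if_neg (show ¬ ((Sum.inl p : P ⊕ PS ∅), 0).1 = Sum.inl v from fun h9 => hw (Sum.inl_injective h9)), add_zero]
        split_ifs
        · show -(w p 0 * ‖∑ i, α p i ^ (0 + 1)‖ ^ 2 / (((0 : ℕ) : ℝ) + 1)) ≤ _
          simp
        · simp
    rw [tsum_ite_eq] at h6
    linarith
  · refine hconv (x : ℂ) (by simpa using hx) ((ord_quot dU dV (hVx x hx)).2 ?_)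
    exact Finset.prod_eq_zero (Finset.mem_univ j) hv
  · exact hconv ρ hρ ho

end Pool.Agent.Q12.WN
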