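import Mathlib
import Pool.Agent.Q12.WN.Asm
import Pool.Agent.Y243.SP.Sph1
import Pool.Agent.TH861.GL3.Main

/-! Cuspidal representations of `GL_n` over a number field: weighted signed sums at every scale. -/

set_option autoImplicit false

open Complex MeasureTheory Set Filter Topology NumberField IsDedekindDomain
open Pool.Agent.W189.TP (DS DS_diff DS_norm_le summ_mono)
open Pool.Agent.TH861.GL3 (PL qq two_le_qq summable_qq)

namespace Pool.Agent.Q12.WN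

/-- a pole of a Gamma factor of the completed function is a zero -/
theorem xi_zero {m : ℕ} {κ : Fin m → ℂ} {G Ξ : ℂ → ℂ} {Q : ℝ} (hQ : 0 < Q) (hG : Differentiable ℂ G)
    (hΞ : Differentiable ℂ Ξ) (r : ℕ)
    (hid : ∀ s : ℂ, 1 < s.re → Ξ s = s ^ r * G s * ((Q : ℂ) ^ s * ∏ j, Gammaℝ (s + κ j))) {j : Fin m} {x : ℝ}
    (hx : κ j = -(x : ℂ)) (hx0 : 0 < x) : G (x : ℂ) = 0 := by
  have hQ0 : (Q : ℂ) ≠ 0 := by exact_mod_cast hQ.ne'
  have h1 := Pool.Agent.Y243.SP.ent_id (κ := κ) (a := Real.log Q) (G := fun s => s ^ r * G s) (Ξ := Ξ)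
    ((differentiable_id.pow r).mul hG) hΞ (fun s hs => by
      rw [hid s hs, Complex.cpow_def_of_ne_zero hQ0, ← Complex.ofReal_log hQ.le, mul_comm ((Real.log Q : ℝ) : ℂ) s]
      ring) (x : ℂ)
  have h6 : ∏ j, (Gammaℝ ((x : ℂ) + κ j))⁻¹ = 0 := by
    refine Finset.prod_eq_zero (Finset.mem_univ j) ?_
    rw [hx, inv_eq_zero, Gammaℝ_eq_zero_iff]
    exact ⟨0, by simp⟩
  rw [h6, mul_zero, mul_zero, mul_eq_zero] at h1
  rcases h1 with h1 | h1
  · exfalso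
    rcases Nat.eq_zero_or_pos r with h3 | h3
    · rw [h3, pow_zero] at h1
      exact one_ne_zero h1
    · have h4 := (pow_eq_zero_iff h3.ne').1 h1
      have : x = 0 := by exact_mod_cast h4
      linarith
  · exact h1

variable {K : Type*} [Field K] [NumberField K] {S : Finset (HeightOneSpectrum (𝓞 K))} {n : ℕ}

theorem psysK (S : Finset (HeightOneSpectrum (𝓞 K))) : PSys (fun v : PL S => (qq v.1 : ℝ)) :=
  ⟨fun v => by exact_mod_cast two_le_qq v.1, fun _ hσ => summable_qq hσ⟩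

/-- `∑_{v ∉ S} ∑_{k ≥ 1} χ(v)^k t(v, k) / k (N v)^{-ks}` -/
noncomputable def logK (χ : PL S → ℂ) (t : PL S → ℕ → ℝ) (s : ℂ) : ℂ :=
  ∑' x : PL S × ℕ, χ x.1 ^ (x.2 + 1) * ((t x.1 (x.2 + 1) / ((x.2 : ℝ) + 1) : ℝ) : ℂ) *
    (((qq x.1.1 : ℕ) : ℂ) ^ (-s)) ^ (x.2 + 1)

theorem logK_eq (χ : PL S → ℂ) (t : PL S → ℕ → ℝ) (s : ℂ) :
    logK χ t s = ser (fun v : PL S => (qq v.1 : ℝ)) χ t s := by
  unfold logK ser
  refine tsum_congr fun x => ?_
  rw [← Pool.Agent.TH861.GL3.exp_LL]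
  rfl

/-- `|∑_i α_{i,v}^k|²` -/
noncomputable def tr2 {P : Type*} (α : P → Fin n → ℂ) (v : P) (k : ℕ) : ℝ := ‖∑ i, α v i ^ k‖ ^ 2

/-- the Euler factors at `S` -/
noncomputable def badK (S : Finset (HeightOneSpectrum (𝓞 K))) {m : ℕ} (β : HeightOneSpectrum (𝓞 K) → Fin m → ℂ) (s : ℂ) : ℂ :=
  ∏ v ∈ S, ∏ i, (1 - β v i * ((qq v : ℕ) : ℂ) ^ (-s))

theorem badK_diff {m : ℕ} (β : HeightOneSpectrum (𝓞 K) → Fin m → ℂ) : Differentiable ℂ (badK S β) := by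
  refine Differentiable.fun_finsetProd fun v _ => Differentiable.fun_finsetProd fun i _ => ?_
  have hp : ((qq v : ℕ) : ℂ) ≠ 0 := by
    have := two_le_qq v
    exact_mod_cast (by omega : qq v ≠ 0)
  refine (differentiable_const _).sub ((differentiable_const _).mul ?_)
  intro s
  exact (differentiableAt_id.neg).const_cpow (Or.inl hp)

theorem badK_zero {m : ℕ} {β : HeightOneSpectrum (𝓞 K) → Fin m → ℂ} {v : HeightOneSpectrum (𝓞 K)} (hv : v ∈ S)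
    {i : Fin m} {x : ℝ} (hx : β v i = ((qq v : ℕ) : ℂ) ^ (x : ℂ)) : badK S β (x : ℂ) = 0 := by
  unfold badK
  refine Finset.prod_eq_zero hv (Finset.prod_eq_zero (Finset.mem_univ i) ?_)
  have hp : ((qq v : ℕ) : ℂ) ≠ 0 := by
    have := two_le_qq v
    exact_mod_cast (by omega : qq v ≠ 0)
  rw [hx, ← Complex.cpow_add _ _ hp]
  simp

/-- Properties of a unitary cuspidal automorphic representation `π` of `GL_n` over the number field `K`: `α v` are the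
Satake parameters at `v ∉ S`, `β v` the reciprocal roots of the local factor of `L(s, π × π~)` at `v ∈ S`, `κ` the
parameters of its Gamma factor. -/
structure CuspidalRepK (S : Finset (HeightOneSpectrum (𝓞 K))) (α : PL S → Fin n → ℂ)
    (β : HeightOneSpectrum (𝓞 K) → Fin (n ^ 2) → ℂ) (κ : Fin (n ^ 2 * Module.finrank ℚ K) → ℂ) : Prop where
  /-- the Satake parameters are nonzero -/
  ne_zero : ∀ v i, α v i ≠ 0
  /-- `π_v` is unitary -/
  unitary : ∀ v, ∃ τ : Equiv.Perm (Fin n), ∀ i, α v (τ i) = ((starRingEnd ℂ) (α v i))⁻¹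
  /-- absolute convergence of `L(s, π × π~)` for `Re s > 1` -/
  summable : ∀ σ : ℝ, 1 < σ → Summable fun x : PL S × ℕ =>
    ‖∑ i, α x.1 i ^ (x.2 + 1)‖ ^ 2 / ((x.2 : ℝ) + 1) * (((qq x.1.1 : ℕ) : ℝ) ^ (-σ)) ^ (x.2 + 1)
  /-- `L(s, π × π~) = G(s) / (s - 1)`, and `Ξ(s) = s (s - 1) Q^s ∏ Γ_ℝ(s + κ_j) L(s, π × π~)` is entire -/
  continuation : ∃ (G Ξ : ℂ → ℂ) (Q : ℝ), Differentiable ℂ G ∧ Differentiable ℂ Ξ ∧ 0 < Q ∧
    (∀ s : ℂ, 1 < s.re → G s * badK S β s = (s - 1) * Complex.exp (logK (fun _ => 1) (tr2 α) s)) ∧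
    ∀ s : ℂ, 1 < s.re → Ξ s = s * G s * ((Q : ℂ) ^ s * ∏ j, Complex.Gammaℝ (s + κ j))

/-- `(s - 1) ζ_K(s)` is entire and has no real zeros larger than `c` (the Euler factors at `S` are left out) -/
def ZetaK (S : Finset (HeightOneSpectrum (𝓞 K))) (c : ℝ) : Prop :=
  ∃ Z : ℂ → ℂ, Differentiable ℂ Z ∧
    (∀ s : ℂ, 1 < s.re → Z s = (s - 1) * Complex.exp (logK (S := S) (fun _ => 1) (fun _ _ => 1) s)) ∧
    ∀ x : ℝ, c < x → Z (x : ℂ) ≠ 0

/-- Properties of a nontrivial unitary Hecke character `χ` of finite order, unramified outside `S`, with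
`π ⊗ χ` not isomorphic to `π`: `L^S(s, χ)` and `L^S(s, π × π~ × χ)` are entire; it is assumed that the former has no
real zeros larger than `c`. -/
structure HeckeTwist (α : PL S → Fin n → ℂ) (χ : PL S → ℂ) (c : ℝ) : Prop where
  norm : ∀ v, ‖χ v‖ ≤ 1
  hecke : ∃ V : ℂ → ℂ, Differentiable ℂ V ∧
    (∀ s : ℂ, 1 < s.re → V s = Complex.exp (logK χ (fun _ _ => 1) s)) ∧ ∀ x : ℝ, c < x → V (x : ℂ) ≠ 0
  twist : ∃ U : ℂ → ℂ, Differentiable ℂ U ∧ ∀ s : ℂ, 1 < s.re → U s = Complex.exp (logK χ (tr2 α) s)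

/-- A real pole `> c` of a local factor of `L(s, π × π~)`. -/
def BadPlace (S : Finset (HeightOneSpectrum (𝓞 K))) {m : ℕ} (α : PL S → Fin n → ℂ)
    (β : HeightOneSpectrum (𝓞 K) → Fin (n ^ 2) → ℂ) (κ : Fin m → ℂ) (c : ℝ) : Prop :=
  (∃ (v : PL S) (i : Fin n), c < 2 * |Real.logb (qq v.1 : ℝ) ‖α v i‖|) ∨
  (∃ v ∈ S, ∃ (i : Fin (n ^ 2)) (x : ℝ), β v i = ((qq v : ℕ) : ℂ) ^ (x : ℂ) ∧ c < x) ∨
  ∃ (j : Fin m) (x : ℝ), κ j = -(x : ℂ) ∧ c < x

open scoped Classical in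
/-- **Weighted signed sums over the places of a number field at every scale.** -/
theorem nf_main {α : PL S → Fin n → ℂ} {β : HeightOneSpectrum (𝓞 K) → Fin (n ^ 2) → ℂ}
    {κ : Fin (n ^ 2 * Module.finrank ℚ K) → ℂ} (h : CuspidalRepK S α β κ) {c : ℝ} (hc : 1 / 2 ≤ c) (hζ : ZetaK S c)
    {ι : Type*} [Fintype ι] {χ : ι → PL S → ℂ} {j₀ : ι} (hj₀ : ∀ v, χ j₀ v = 1)
    (hχ : ∀ j, (∀ v, χ j v = 1) ∨ HeckeTwist α (χ j) c)
    (hw : ∀ (v : PL S) (k : ℕ), ∃ r : ℝ, 0 ≤ r ∧ ∑ j, χ j v ^ (k + 1) = (r : ℂ))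
    (hv : BadPlace S α β κ c ∨ ∃ (F : ℂ → ℂ) (ρ : ℂ), MeromorphicOn F univ ∧
      (∀ s : ℂ, 1 < s.re → F s = cexp (∑ j, (logK (χ j) (tr2 α) s - logK (χ j) (fun _ _ => 1) s))) ∧
      c < ρ.re ∧ meromorphicOrderAt F ρ ≠ 0)
    {δ : ℝ} (hδ : 0 < δ) (A : ℝ) :
    ∀ᶠ X : ℝ in atTop, ∃ x : ℝ, X ^ (1 - δ) ≤ x ∧ x ≤ X ∧
      A * x ^ c ≤ ∑' v : PL S, if (qq v.1 : ℝ) ≤ x then (∑ j, χ j v).re * (1 - ‖∑ i, α v i‖ ^ 2) else 0 := by
  have : Countable (HeightOneSpectrum (𝓞 K)) := Pool.Agent.TH861.GL3.countable_primes K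
  obtain ⟨Z, hZ, hZ1, hZr⟩ := hζ
  obtain ⟨G, Ξ, Q, hG, hΞ, hQ, hE, hid⟩ := h.continuation
  choose w0 hw0 hw1 using hw
  have hbd := badK_diff (S := S) β
  -- the functions
  have hex : ∀ j, ∃ (e : ℕ) (U V : ℂ → ℂ), Tw (fun v : PL S => (qq v.1 : ℝ)) 1 e (χ j) α U V ∧
      (∀ x : ℝ, c < x → V (x : ℂ) ≠ 0) ∧ ((∀ v, χ j v = 1) → ∀ s, U s = G s * badK S β s) := by
    intro j
    by_cases hj : ∀ v, χ j v = 1
    · have hj' : χ j = fun _ => 1 := funext hj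
      refine ⟨1, fun s => G s * badK S β s, Z, ⟨hG.mul hbd, hZ, fun s hs => ?_, fun s hs => ?_⟩, hZr, fun _ s => rfl⟩
      · rw [mul_one, pow_one, hE s hs, logK_eq, hj']
        rfl
      · rw [pow_one, hZ1 s hs, logK_eq, hj']
    · rcases hχ j with h1 | h1
      · exact absurd h1 hj
      · obtain ⟨V, hV, hV1, hVr⟩ := h1.hecke
        obtain ⟨U, hU, hU1⟩ := h1.twist
        refine ⟨0, U, V, ⟨hU, hV, fun s hs => ?_, fun s hs => ?_⟩, hVr, fun h2 => absurd h2 hj⟩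
        · rw [zero_mul, pow_zero, one_mul, hU1 s hs, logK_eq]
          rfl
        · rw [pow_zero, one_mul, hV1 s hs, logK_eq]
  choose e U V hT hVr hUj using hex
  have hwt : Wt (ι := ι) (fun j (v : PL S) => χ j v) w0 :=
    { le_one := fun j v => by
        rcases hχ j with h1 | h1
        · rw [h1 v, norm_one]
        · exact h1.norm v
      eq := fun v k => hw1 v k
      nonneg := fun v k => hw0 v k
      triv := ⟨j₀, hj₀⟩ }
  have hsum : ∀ σ : ℝ, 1 < σ → Summable fun x : PL S × ℕ =>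
      ‖∑ i, α x.1 i ^ (x.2 + 1)‖ ^ 2 / ((x.2 : ℝ) + 1) * ((fun v : PL S => (qq v.1 : ℝ)) x.1 ^ (-σ)) ^ (x.2 + 1) :=
    fun σ hσ => h.summable σ hσ
  have key := twists (P := PL S) 1 (psysK S) hwt h.ne_zero h.unitary hsum hT hc hVr (by
    rcases hv with (hv | ⟨v, hvS, i, x, hx, hcx⟩ | ⟨j, x, hx, hcx⟩) | ⟨F, ρ, hF, hFE, hρ, ho⟩
    · exact Or.inl hv
    · refine Or.inr (Or.inl ⟨j₀, x, hcx, ?_⟩)
      rw [hUj j₀ hj₀, badK_zero hvS hx, mul_zero]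
    · refine Or.inr (Or.inl ⟨j₀, x, hcx, ?_⟩)
      rw [hUj j₀ hj₀, xi_zero hQ hG hΞ 1 (fun s hs => by rw [pow_one]; exact hid s hs) hx (by linarith), zero_mul]
    · refine Or.inr (Or.inr ⟨ρ, hρ, ?_⟩)
      have dU : Differentiable ℂ fun s => ∏ j, U j s := Differentiable.fun_finsetProd fun j _ => (hT j).dU
      have dV : Differentiable ℂ fun s => ∏ j, V j s ^ 1 := Differentiable.fun_finsetProd fun j _ => (hT j).dV.pow 1
      have hF0 : MeromorphicOn (fun s => (∏ j, U j s) / ∏ j, V j s ^ 1) univ := fun s _ =>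
        (dU.analyticAt s).meromorphicAt.div (dV.analyticAt s).meromorphicAt
      rw [← Pool.Agent.TH949.TX.order_eq hF hF0 (fun s hs => ?_) ρ]
      · exact ho
      · rw [hFE s hs, Complex.exp_sum, ← Finset.prod_div_distrib]
        refine Finset.prod_congr rfl fun j _ => ?_
        have e1 := (hT j).eU s hs
        have e2 := (hT j).eV s hs
        have hs1 : s - 1 ≠ 0 := by
          rw [sub_ne_zero]
          rintro rfl
          simp at hs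
        rw [logK_eq, logK_eq, Complex.exp_sub, e1, e2, mul_one, pow_one]
        have := Complex.exp_ne_zero (ser (fun v : PL S => (qq v.1 : ℝ)) (χ j) (fun _ _ => 1) s)
        have hp := pow_ne_zero (e j) hs1
        have e3 : ser (fun v : PL S => (qq v.1 : ℝ)) (χ j) (tr2 α) s =
          ser (fun v : PL S => (qq v.1 : ℝ)) (χ j) (fun p k => ‖∑ i, α p i ^ k‖ ^ 2) s := rfl
        rw [e3]
        field_simp) hδ A 0
  filter_upwards [key] with X hX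
  obtain ⟨x, h1, h2, h3⟩ := hX
  refine ⟨x, h1, h2, ?_⟩
  rw [add_zero] at h3
  refine h3.trans (le_of_eq ?_)
  refine tsum_congr fun v => ?_
  have e1 : (∑ j, χ j v).re = w0 v 0 := by
    have := hw1 v 0
    simp only [zero_add, pow_one] at this
    rw [this, Complex.ofReal_re]
  rw [e1, Nat.cast_one]

end Pool.Agent.Q12.WN
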