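import Mathlib
import Pool.Agent.Q12.WN.Asm
import Pool.Agent.Q12.WN.NF
import Pool.Agent.Q12.WN.Sph
import Pool.Agent.TH949.TX.Rat4

/-! Isobaric representations of `GL_n` over `ℚ`: weighted signed sums at every scale. -/

set_option autoImplicit false

open Complex MeasureTheory Set Filter Topology DirichletCharacter
open Pool.Agent.W189.TP (DS DS_diff DS_norm_le summ_mono PS LL LL_nonneg exp_LL logRS bad bad_diff zetaS
  pr_rpow_lt_one)
open Pool.Agent.TH949.TX (VV VV_diff VV_real VV_one bad_zero)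

namespace Pool.Agent.Q12.WN

variable {S : Finset Nat.Primes} {n : ℕ} {q : ℕ}

/-- the norms -/
noncomputable def nq (S : Finset Nat.Primes) (p : PS S) : ℝ := ((p.1 : ℕ) : ℝ)

theorem psysQ (S : Finset Nat.Primes) : PSys (nq S) := psys S

/-- `∑_{p ∉ S} ∑_{k ≥ 1} χ(p)^k t(p, k) / k p^{-ks}` -/
noncomputable def logQ (S : Finset Nat.Primes) (χ : DirichletCharacter ℂ q) (t : PS S → ℕ → ℝ) (s : ℂ) : ℂ :=
  ∑' x : PS S × ℕ, χ ((x.1.1 : ℕ) : ZMod q) ^ (x.2 + 1) * ((t x.1 (x.2 + 1) / ((x.2 : ℝ) + 1) : ℝ) : ℂ) *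
    (((x.1.1 : ℕ) : ℂ) ^ (-s)) ^ (x.2 + 1)

theorem logQ_eq (χ : DirichletCharacter ℂ q) (t : PS S → ℕ → ℝ) (s : ℂ) :
    logQ S χ t s = ser (nq S) (fun p => χ ((p.1 : ℕ) : ZMod q)) t s := by
  unfold logQ ser
  refine tsum_congr fun x => ?_
  rw [← exp_LL]
  rfl

/-- the Dirichlet `L`-function without the Euler factors at `S` -/
theorem dirLS [NeZero q] (χ : DirichletCharacter ℂ q) {s : ℂ} (hs : 1 < s.re) :
    cexp (logQ S χ (fun _ _ => 1) s) = LFunction χ s * ∏ p ∈ S, (1 - χ ((p : ℕ) : ZMod q) * ((p : ℕ) : ℂ) ^ (-s)) := by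
  have hσ : 0 < s.re := by linarith
  have hz : ∀ p : Nat.Primes, ‖χ ((p : ℕ) : ZMod q) * ((p : ℕ) : ℂ) ^ (-s)‖ < 1 := by
    intro p
    rw [norm_mul, Complex.norm_natCast_cpow_of_pos p.2.pos, Complex.neg_re]
    exact lt_of_le_of_lt (mul_le_of_le_one_left (by positivity) (χ.norm_le_one _)) (pr_rpow_lt_one p hσ)
  have hsum := ser_summ (q := nq S) (z := fun p => χ ((p.1 : ℕ) : ZMod q)) (s := s) (t := fun _ _ => 1)
    (fun p => χ.norm_le_one _) (one_summ (psysQ S) hs)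
  have hlog : ∀ p : PS S, ∑' k : ℕ, χ ((p.1 : ℕ) : ZMod q) ^ (k + 1) * (((1 : ℝ) / ((k : ℝ) + 1) : ℝ) : ℂ) *
      cexp (-(s * LG (nq S) (p, k))) = -Complex.log (1 - χ ((p.1 : ℕ) : ZMod q) * ((p.1 : ℕ) : ℂ) ^ (-s)) := by
    intro p
    rw [← (Complex.hasSum_taylorSeries_neg_log' (hz p.1)).tsum_eq]
    refine tsum_congr fun k => ?_
    have e1 : cexp (-(s * LG (nq S) (p, k))) = (((p.1 : ℕ) : ℂ) ^ (-s)) ^ (k + 1) := exp_LL (p, k) s
    rw [e1]
    push_cast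
    ring
  rw [logQ_eq]
  unfold ser
  rw [hsum.tsum_prod]
  simp_rw [hlog]
  have hF : Summable fun p : Nat.Primes => -Complex.log (1 - χ ((p : ℕ) : ZMod q) * ((p : ℕ) : ℂ) ^ (-s)) := by
    have h1 : Summable fun p : Nat.Primes => χ ((p : ℕ) : ZMod q) * ((p : ℕ) : ℂ) ^ (-s) := by
      refine Summable.of_norm_bounded (g := fun p : Nat.Primes => ((p : ℕ) : ℝ) ^ (-s.re))
        (Nat.Primes.summable_rpow.2 (by linarith : -s.re < -1)) fun p => ?_
      rw [norm_mul, Complex.norm_natCast_cpow_of_pos p.2.pos, Complex.neg_re]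
      exact mul_le_of_le_one_left (by positivity) (χ.norm_le_one _)
    have h2 := Complex.summable_log_one_add_of_summable h1.neg
    refine h2.neg.congr fun p => ?_
    rw [← sub_eq_add_neg]
  have h3 := hF.sum_add_tsum_subtype_compl S
  have h4 := DirichletCharacter.LSeries_eulerProduct_exp_log χ hs
  rw [← h3, Complex.exp_add, Complex.exp_sum] at h4
  have h6 : ∀ p : Nat.Primes, 1 - χ ((p : ℕ) : ZMod q) * ((p : ℕ) : ℂ) ^ (-s) ≠ 0 := by
    intro p h6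
    have h7 := hz p
    rw [← sub_eq_zero.1 h6] at h7
    simp at h7
  have h5 : ∏ p ∈ S, Complex.exp (-Complex.log (1 - χ ((p : ℕ) : ZMod q) * ((p : ℕ) : ℂ) ^ (-s))) =
      (∏ p ∈ S, (1 - χ ((p : ℕ) : ZMod q) * ((p : ℕ) : ℂ) ^ (-s)))⁻¹ := by
    rw [← Finset.prod_inv_distrib]
    refine Finset.prod_congr rfl fun p _ => ?_
    rw [Complex.exp_neg, Complex.exp_log (h6 p)]
  have h8 : ∏ p ∈ S, (1 - χ ((p : ℕ) : ZMod q) * ((p : ℕ) : ℂ) ^ (-s)) ≠ 0 :=
    Finset.prod_ne_zero_iff.2 fun p _ => h6 p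
  rw [DirichletCharacter.LFunction_eq_LSeries χ hs, ← h4, h5]
  field_simp

/-- Properties of an isobaric sum `Π` of `r` distinct unitary cuspidal automorphic representations of groups `GL_m`
over `ℚ`, `n` the sum of the `m`: `α p` are the Satake parameters at `p ∉ S`, `β p` the reciprocal roots of the local
factor of `L(s, Π × Π~)` at `p ∈ S`, `κ` the parameters of its Gamma factor. -/
structure IsobaricRep (S : Finset Nat.Primes) (r : ℕ) (α : PS S → Fin n → ℂ) (β : Nat.Primes → Fin (n ^ 2) → ℂ)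
    (κ : Fin (n ^ 2) → ℂ) : Prop where
  /-- the Satake parameters are nonzero -/
  ne_zero : ∀ p i, α p i ≠ 0
  /-- `Π_p` is unitary -/
  unitary : ∀ p, ∃ τ : Equiv.Perm (Fin n), ∀ i, α p (τ i) = ((starRingEnd ℂ) (α p i))⁻¹
  /-- absolute convergence of `L(s, Π × Π~)` for `Re s > 1` -/
  summable : ∀ σ : ℝ, 1 < σ → Summable fun x : PS S × ℕ =>
    ‖∑ i, α x.1 i ^ (x.2 + 1)‖ ^ 2 / ((x.2 : ℝ) + 1) * (((x.1.1 : ℕ) : ℝ) ^ (-σ)) ^ (x.2 + 1)
  /-- `L(s, Π × Π~) = G(s) / (s - 1)^r`, and `Ξ(s) = s^r (s - 1)^r Q^s ∏ Γ_ℝ(s + κ_j) L(s, Π × Π~)` is entire -/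
  continuation : ∃ (G Ξ : ℂ → ℂ) (Q : ℝ), Differentiable ℂ G ∧ Differentiable ℂ Ξ ∧ 0 < Q ∧
    (∀ s : ℂ, 1 < s.re → G s * bad S β s = (s - 1) ^ r * Complex.exp (logRS α s)) ∧
    ∀ s : ℂ, 1 < s.re → Ξ s = s ^ r * G s * ((Q : ℂ) ^ s * ∏ j, Complex.Gammaℝ (s + κ j))

/-- A real pole `> c` of a local factor of `L(s, Π × Π~)`. -/
def BadPlaceQ (S : Finset Nat.Primes) {m : ℕ} (α : PS S → Fin n → ℂ)
    (β : Nat.Primes → Fin (n ^ 2) → ℂ) (κ : Fin m → ℂ) (c : ℝ) : Prop :=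
  (∃ (p : PS S) (i : Fin n), c < 2 * |Real.logb ((p.1 : ℕ) : ℝ) ‖α p i‖|) ∨
  (∃ p ∈ S, ∃ (i : Fin (n ^ 2)) (x : ℝ), β p i = ((p : ℕ) : ℂ) ^ (x : ℂ) ∧ c < x) ∨
  ∃ (j : Fin m) (x : ℝ), κ j = -(x : ℂ) ∧ c < x

theorem one_ser (S : Finset Nat.Primes) (t : PS S → ℕ → ℝ) (hS : ∀ p : Nat.Primes, (p : ℕ) ∣ q → p ∈ S) [NeZero q] :
    (fun p : PS S => (1 : DirichletCharacter ℂ q) ((p.1 : ℕ) : ZMod q)) = fun _ => 1 := by
  funext p
  have h1 : IsUnit (((p.1 : ℕ)) : ZMod q) := by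
    rw [ZMod.isUnit_iff_coprime, Nat.Prime.coprime_iff_not_dvd p.1.2]
    exact fun h => p.2 (hS p.1 h)
  rw [MulChar.one_apply h1]

open scoped Classical in
/-- **Weighted signed sums over the primes at every scale.** -/
theorem rat_main {r : ℕ} {α : PS S → Fin n → ℂ} {β : Nat.Primes → Fin (n ^ 2) → ℂ}
    {κ : Fin (n ^ 2) → ℂ} (h : IsobaricRep S r α β κ) [NeZero q] (hS : ∀ p : Nat.Primes, (p : ℕ) ∣ q → p ∈ S)
    {c : ℝ} (hc : 1 / 2 ≤ c) {ι : Type*} [Fintype ι] {χ : ι → DirichletCharacter ℂ q} {j₀ : ι} (hj₀ : χ j₀ = 1)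
    (hz : ∀ j, ∀ σ : ℝ, c < σ → σ < 1 → LFunction (χ j) σ ≠ 0)
    (htw : ∀ j, χ j ≠ 1 → ∃ E : ℂ → ℂ, Differentiable ℂ E ∧ ∀ s : ℂ, 1 < s.re → E s = cexp (logQ S (χ j) (tr2 α) s))
    (hw : ∀ a : (ZMod q)ˣ, ∃ w : ℝ, 0 ≤ w ∧ ∑ j, χ j a = (w : ℂ))
    (hv : BadPlaceQ S α β κ c ∨ ∃ (F : ℂ → ℂ) (ρ : ℂ), MeromorphicOn F univ ∧
      (∀ s : ℂ, 1 < s.re → F s = cexp (∑ j, (logQ S (χ j) (tr2 α) s - r * logQ S (χ j) (fun _ _ => 1) s))) ∧
      c < ρ.re ∧ meromorphicOrderAt F ρ ≠ 0)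
    {δ : ℝ} (hδ : 0 < δ) (A : ℝ) :
    ∀ᶠ X : ℝ in atTop, ∃ x : ℝ, X ^ (1 - δ) ≤ x ∧ x ≤ X ∧
      A * x ^ c ≤ ∑' p : PS S, if ((p.1 : ℕ) : ℝ) ≤ x then
        (∑ j, χ j ((p.1 : ℕ) : ZMod q)).re * (r - ‖∑ i, α p i‖ ^ 2) else 0 := by
  obtain ⟨G, Ξ, Q, hG, hΞ, hQ, hE, hid⟩ := h.continuation
  have hbd := bad_diff S β
  have hone := one_ser (q := q) S (fun _ _ => 1) hS
  have hunit : ∀ p : PS S, ∃ a : (ZMod q)ˣ, (a : ZMod q) = ((p.1 : ℕ) : ZMod q) := fun p => by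
    have h1 : IsUnit (((p.1 : ℕ)) : ZMod q) := by
      rw [ZMod.isUnit_iff_coprime, Nat.Prime.coprime_iff_not_dvd p.1.2]
      exact fun h => p.2 (hS p.1 h)
    exact ⟨h1.unit, rfl⟩
  have hw' : ∀ (p : PS S) (k : ℕ), ∃ w : ℝ, 0 ≤ w ∧ ∑ j, χ j ((p.1 : ℕ) : ZMod q) ^ (k + 1) = (w : ℂ) := by
    intro p k
    obtain ⟨a, ha⟩ := hunit p
    obtain ⟨w, h1, h2⟩ := hw (a ^ (k + 1))
    refine ⟨w, h1, ?_⟩
    rw [← h2]
    refine Finset.sum_congr rfl fun j _ => ?_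
    rw [Units.val_pow_eq_pow_val, map_pow, ha]
  choose w0 hw0 hw1 using hw'
  have hex : ∀ j, ∃ (e : ℕ) (U V : ℂ → ℂ), Tw (nq S) r e (fun p => χ j ((p.1 : ℕ) : ZMod q)) α U V ∧
      (∀ x : ℝ, c < x → V (x : ℂ) ≠ 0) ∧ (χ j = 1 → ∀ s, U s = G s * bad S β s) := by
    intro j
    by_cases hj : χ j = 1
    · refine ⟨1, fun s => G s * bad S β s, VV S, ⟨hG.mul hbd, VV_diff S, fun s hs => ?_, fun s hs => ?_⟩,
        fun x hx => VV_real (by linarith), fun _ s => rfl⟩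
      · rw [one_mul, hE s hs, hj, hone]
        congr 2
        unfold logRS ser
        refine tsum_congr fun x => ?_
        rw [one_pow, one_mul]
        congr 1
        exact (exp_LL x s).symm
      · have hs1 : s ≠ 1 := by
          rintro rfl
          simp at hs
        have hb : bad S (fun _ (_ : Fin 1) => 1) s = ∏ p ∈ S, (1 - ((p : ℕ) : ℂ) ^ (-s)) := by
          unfold bad
          simp
        unfold VV
        rw [pow_one, Pool.Agent.H437R2.z1_of_ne hs1, hb, mul_assoc, ← zetaS hs, hj, hone]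
        congr 2
        unfold ser
        refine tsum_congr fun x => ?_
        rw [one_pow, one_mul]
        rfl
    · obtain ⟨E, hE1, hE2⟩ := htw j hj
      refine ⟨0, E, fun s => LFunction (χ j) s * ∏ p ∈ S, (1 - χ j ((p : ℕ) : ZMod q) * ((p : ℕ) : ℂ) ^ (-s)),
        ⟨hE1, (differentiable_LFunction hj).mul (Differentiable.fun_finsetProd fun p _ => ?_), fun s hs => ?_,
          fun s hs => ?_⟩, fun x hx => ?_, fun h2 => absurd h2 hj⟩
      · have hp : ((p : ℕ) : ℂ) ≠ 0 := by exact_mod_cast p.2.ne_zero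
        refine (differentiable_const _).sub ((differentiable_const _).mul ?_)
        intro s
        exact (differentiableAt_id.neg).const_cpow (Or.inl hp)
      · rw [zero_mul, pow_zero, one_mul, hE2 s hs, logQ_eq]
        rfl
      · rw [pow_zero, one_mul, ← dirLS (χ j) hs, logQ_eq]
      · refine mul_ne_zero ?_ (Finset.prod_ne_zero_iff.2 fun p _ h6 => ?_)
        · rcases lt_or_ge x 1 with h1 | h1
          · exact hz j x hx h1
          · exact LFunction_ne_zero_of_one_le_re _ (Or.inl hj) (by rw [Complex.ofReal_re]; exact h1)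
        · have h7 : ‖χ j ((p : ℕ) : ZMod q) * ((p : ℕ) : ℂ) ^ (-(x : ℂ))‖ < 1 := by
            rw [norm_mul, Complex.norm_natCast_cpow_of_pos p.2.pos, Complex.neg_re, Complex.ofReal_re]
            exact lt_of_le_of_lt (mul_le_of_le_one_left (by positivity) ((χ j).norm_le_one _))
              (pr_rpow_lt_one p (by linarith))
          rw [← sub_eq_zero.1 h6] at h7
          simp at h7
  choose e U V hT hVr hUj using hex
  have hwt : Wt (ι := ι) (fun j (p : PS S) => χ j ((p.1 : ℕ) : ZMod q)) w0 :=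
    { le_one := fun j p => (χ j).norm_le_one _
      eq := fun p k => hw1 p k
      nonneg := fun p k => hw0 p k
      triv := ⟨j₀, fun p => by
        rw [hj₀]
        exact congrFun hone p⟩ }
  have key := twists (P := PS S) r (psysQ S) hwt h.ne_zero h.unitary h.summable hT hc hVr (by
    rcases hv with (hv | ⟨v, hvS, i, x, hx, hcx⟩ | ⟨j, x, hx, hcx⟩) | ⟨F, ρ, hF, hFE, hρ, ho⟩
    · exact Or.inl hv
    · refine Or.inr (Or.inl ⟨j₀, x, hcx, ?_⟩)
      rw [hUj j₀ hj₀, bad_zero hvS hx, mul_zero]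
    · refine Or.inr (Or.inl ⟨j₀, x, hcx, ?_⟩)
      rw [hUj j₀ hj₀, xi_zero hQ hG hΞ r hid hx (by linarith), zero_mul]
    · refine Or.inr (Or.inr ⟨ρ, hρ, ?_⟩)
      have dU : Differentiable ℂ fun s => ∏ j, U j s := Differentiable.fun_finsetProd fun j _ => (hT j).dU
      have dV : Differentiable ℂ fun s => ∏ j, V j s ^ r := Differentiable.fun_finsetProd fun j _ => (hT j).dV.pow r
      have hF0 : MeromorphicOn (fun s => (∏ j, U j s) / ∏ j, V j s ^ r) univ := fun s _ =>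
        (dU.analyticAt s).meromorphicAt.div (dV.analyticAt s).meromorphicAt
      rw [← Pool.Agent.TH949.TX.order_eq hF hF0 (fun s hs => ?_) ρ]
      · exact ho
      · rw [hFE s hs, Complex.exp_sum, ← Finset.prod_div_distrib]
        refine Finset.prod_congr rfl fun j _ => ?_
        have e1 := (hT j).eU s hs
        have e2 := (hT j).eV s hs
        have hs1 : s - 1 ≠ 0 := by
          rw [sub_ne_zero]
          rintro rfl
          simp at hs
        rw [logQ_eq, logQ_eq, Complex.exp_sub, Complex.exp_nat_mul, e1, e2, mul_pow, pow_mul]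
        have := Complex.exp_ne_zero (ser (nq S) (fun p => χ j ((p.1 : ℕ) : ZMod q)) (fun _ _ => 1) s)
        have hp := pow_ne_zero (e j) hs1
        have e3 : ser (nq S) (fun p => χ j ((p.1 : ℕ) : ZMod q)) (tr2 α) s =
          ser (nq S) (fun p => χ j ((p.1 : ℕ) : ZMod q)) (fun p k => ‖∑ i, α p i ^ k‖ ^ 2) s := rfl
        rw [e3]
        field_simp) hδ A 0
  filter_upwards [key] with X hX
  obtain ⟨x, h1, h2, h3⟩ := hX
  refine ⟨x, h1, h2, ?_⟩
  rw [add_zero] at h3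
  refine h3.trans (le_of_eq ?_)
  refine tsum_congr fun v => ?_
  have e1 : (∑ j, χ j ((v.1 : ℕ) : ZMod q)).re = w0 v 0 := by
    have := hw1 v 0
    simp only [zero_add, pow_one] at this
    rw [this, Complex.ofReal_re]
  rw [e1]
  rfl

end Pool.Agent.Q12.WN
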