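import Mathlib
import Pool.Agent.Q12.WN.Rat
import Pool.Agent.Q12.WN.Pi

/-! Isobaric representations of `GL_n` over `ℚ`: Rankin-Selberg sums compared with the number of primes. -/

set_option autoImplicit false

open Complex MeasureTheory Set Filter Topology DirichletCharacter
open Pool.Agent.W189.TP (DS DS_diff DS_norm_le summ_mono PS LL LL_nonneg exp_LL logRS bad bad_diff zetaS
  pr_rpow_lt_one)
open Pool.Agent.TH949.TX (VV VV_diff VV_real VV_one bad_zero)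

namespace Pool.Agent.Q12.WN

variable {S : Finset Nat.Primes} {n : ℕ} {q : ℕ}

open scoped Classical in
/-- **Comparison with the number of primes.** -/
theorem rat_pi {r : ℕ} {α : PS S → Fin n → ℂ} {β : Nat.Primes → Fin (n ^ 2) → ℂ}
    {κ : Fin (n ^ 2) → ℂ} (h : IsobaricRep S r α β κ) [NeZero q] (hS : ∀ p : Nat.Primes, (p : ℕ) ∣ q → p ∈ S)
    {c : ℝ} (hc : 1 / 2 ≤ c) {ι : Type*} [Fintype ι] {χ : ι → DirichletCharacter ℂ q} {e : ι → ℕ} {j₀ : ι}
    (hj₀ : χ j₀ = 1)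
    (htw : ∀ j, (χ j = 1 ∧ e j = r) ∨ (χ j ≠ 1 ∧ ∃ E : ℂ → ℂ, Differentiable ℂ E ∧
      ∀ s : ℂ, 1 < s.re → E s = (s - 1) ^ e j * cexp (logQ S (χ j) (tr2 α) s)))
    (hw : ∀ a : (ZMod q)ˣ, ∃ w : ℝ, 0 ≤ w ∧ ∑ j, χ j a = (w : ℂ))
    (hv : BadPlaceQ S α β κ c ∨ ∃ (F : ℂ → ℂ) (ρ : ℂ), MeromorphicOn F univ ∧
      (∀ s : ℂ, 1 < s.re → F s * riemannZeta s ^ (∑ j, e j) = cexp (∑ j, logQ S (χ j) (tr2 α) s)) ∧
      c < ρ.re ∧ meromorphicOrderAt F ρ ≠ 0)
    {δ : ℝ} (hδ : 0 < δ) (A : ℝ) :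
    ∀ᶠ X : ℝ in atTop, ∃ x : ℝ, X ^ (1 - δ) ≤ x ∧ x ≤ X ∧
      (∑' p : PS S, if ((p.1 : ℕ) : ℝ) ≤ x then (∑ j, χ j ((p.1 : ℕ) : ZMod q)).re * ‖∑ i, α p i‖ ^ 2 else 0) +
        A * x ^ c ≤ (∑ j, e j : ℕ) * (Nat.primeCounting ⌊x⌋₊ : ℝ) := by
  obtain ⟨G, Ξ, Q, hG, hΞ, hQ, hE, hid⟩ := h.continuation
  have hbd := bad_diff S β
  have hone := one_ser (q := q) S (fun _ _ => 1) hS
  have hunit : ∀ p : PS S, ∃ a : (ZMod q)ˣ, (a : ZMod q) = ((p.1 : ℕ) : ZMod q) := fun p => by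
    have h1 : IsUnit (((p.1 : ℕ)) : ZMod q) := by
      rw [ZMod.isUnit_iff_coprime, Nat.Prime.coprime_iff_not_dvd p.1.2]
      exact fun h => p.2 (hS p.1 h)
    exact ⟨h1.unit, rfl⟩
  have hw' : ∀ (p : PS S) (k : ℕ), ∃ w : ℝ, 0 ≤ w ∧ ∑ j, χ j ((p.1 : ℕ) : ZMod q) ^ (k + 1) = (w : ℂ) := by
    intro p k
    obtain ⟨a, ha⟩ := hunit p
    obtain ⟨w, h1, h2⟩ := hw (a ^ (k + 1))
    refine ⟨w, h1, ?_⟩
    rw [← h2]
    refine Finset.sum_congr rfl fun j _ => ?_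
    rw [Units.val_pow_eq_pow_val, map_pow, ha]
  choose w0 hw0 hw1 using hw'
  have hex : ∀ j, ∃ (U : ℂ → ℂ), TwU (nq S) (e j) (fun p => χ j ((p.1 : ℕ) : ZMod q)) α U ∧
      (χ j = 1 → ∀ s, U s = G s * bad S β s) := by
    intro j
    rcases htw j with ⟨hj, he⟩ | ⟨hj, E, hE1, hE2⟩
    · refine ⟨fun s => G s * bad S β s, ⟨hG.mul hbd, fun s hs => ?_⟩, fun _ s => rfl⟩
      rw [hE s hs, hj, hone, he]
      congr 2
      unfold logRS ser
      refine tsum_congr fun x => ?_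
      rw [one_pow, one_mul]
      congr 1
      exact (exp_LL x s).symm
    · refine ⟨E, ⟨hE1, fun s hs => ?_⟩, fun h2 => absurd h2 hj⟩
      rw [hE2 s hs, logQ_eq]
      rfl
  choose U hT hUj using hex
  have hwt : Wt (ι := ι) (fun j (p : PS S) => χ j ((p.1 : ℕ) : ZMod q)) w0 :=
    { le_one := fun j p => (χ j).norm_le_one _
      eq := fun p k => hw1 p k
      nonneg := fun p k => hw0 p k
      triv := ⟨j₀, fun p => by
        rw [hj₀]
        exact congrFun hone p⟩ }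
  have key := vs_pi (P := PS S) (psysQ S) hwt h.ne_zero h.unitary h.summable hT hc (by
    rcases hv with (hv | ⟨v, hvS, i, x, hx, hcx⟩ | ⟨j, x, hx, hcx⟩) | ⟨F, ρ, hF, hFE, hρ, ho⟩
    · exact Or.inl hv
    · refine Or.inr (Or.inl ⟨j₀, x, hcx, ?_⟩)
      rw [hUj j₀ hj₀, bad_zero hvS hx, mul_zero]
    · refine Or.inr (Or.inl ⟨j₀, x, hcx, ?_⟩)
      rw [hUj j₀ hj₀, xi_zero hQ hG hΞ r hid hx (by linarith), zero_mul]
    · refine Or.inr (Or.inr ⟨ρ, hρ, ?_⟩)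
      have dU : Differentiable ℂ fun s => ∏ j, U j s := Differentiable.fun_finsetProd fun j _ => (hT j).dU
      have dV : Differentiable ℂ fun s => VV ∅ s ^ (∑ j, e j) := (VV_diff ∅).pow _
      have hF0 : MeromorphicOn (fun s => (∏ j, U j s) / VV ∅ s ^ (∑ j, e j)) univ := fun s _ =>
        (dU.analyticAt s).meromorphicAt.div (dV.analyticAt s).meromorphicAt
      rw [← Pool.Agent.TH949.TX.order_eq hF hF0 (fun s hs => ?_) ρ]
      · exact ho
      · have hs1 : s ≠ 1 := by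
          rintro rfl
          simp at hs
        have h2 : (s - 1) ^ (∑ j, e j) ≠ 0 := pow_ne_zero _ (sub_ne_zero.2 hs1)
        have h3 : riemannZeta s ^ (∑ j, e j) ≠ 0 := pow_ne_zero _ (riemannZeta_ne_zero_of_one_le_re hs.le)
        have hb : Pool.Agent.W189.TP.bad ∅ (fun _ (_ : Fin 1) => (1 : ℂ)) s = 1 := by
          unfold Pool.Agent.W189.TP.bad
          simp
        have hV : VV ∅ s = (s - 1) * riemannZeta s := by
          unfold VV
          rw [Pool.Agent.H437R2.z1_of_ne hs1, hb, mul_one]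
        have hU : ∏ j, U j s = (s - 1) ^ (∑ j, e j) * cexp (∑ j, logQ S (χ j) (tr2 α) s) := by
          rw [Finset.prod_congr rfl fun j _ => (hT j).eU s hs, Finset.prod_mul_distrib, Finset.prod_pow_eq_pow_sum,
            Complex.exp_sum]
          congr 1
          refine Finset.prod_congr rfl fun j _ => ?_
          rw [logQ_eq]
          rfl
        rw [hU, ← hFE s hs, hV, mul_pow]
        field_simp) hδ A
  filter_upwards [key] with X hX
  obtain ⟨x, h1, h2, h3⟩ := hX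
  refine ⟨x, h1, h2, ?_⟩
  refine le_trans (le_of_eq ?_) h3
  congr 1
  refine tsum_congr fun v => ?_
  have e1 : (∑ j, χ j ((v.1 : ℕ) : ZMod q)).re = w0 v 0 := by
    have := hw1 v 0
    simp only [zero_add, pow_one] at this
    rw [this, Complex.ofReal_re]
  rw [e1]
  rfl

/-- the sum of the characters in a group of characters -/
theorem sum_group [NeZero q] (X : Subgroup (DirichletCharacter ℂ q)) (a : (ZMod q)ˣ) :
    ∑ χ : {χ // χ ∈ Y243.SP.XS X}, χ.1 (a : ZMod q) =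
      ((open scoped Classical in if ∀ χ ∈ X, χ (a : ZMod q) = 1 then ((Y243.SP.XS X).card : ℝ) else 0 : ℝ) : ℂ) := by
  classical
  rw [Finset.sum_coe_sort (Y243.SP.XS X) (fun χ => χ (a : ZMod q))]
  split_ifs with h
  · rw [Finset.sum_congr rfl fun χ hχ => h χ (Y243.SP.mem_XS.1 hχ), Finset.sum_const, nsmul_eq_mul, mul_one]
    push_cast
    rfl
  · push Not at h
    obtain ⟨χ₀, h1, h2⟩ := h
    rw [Complex.ofReal_zero]
    refine eq_zero_of_mul_eq_self_left h2 ?_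
    rw [Finset.mul_sum]
    refine Finset.sum_equiv (Equiv.mulLeft χ₀) (fun χ => ?_) (fun χ _ => ?_)
    · rw [Y243.SP.mem_XS, Y243.SP.mem_XS, Equiv.coe_mulLeft]
      exact (X.mul_mem_cancel_left h1).symm
    · rw [Equiv.coe_mulLeft, MulChar.mul_apply]

end Pool.Agent.Q12.WN
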