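import Mathlib
import Pool.Agent.Q12.WN.NF
import Pool.Agent.Q12.WN.Pi

/-! Automorphic representations of `GL_n` over a number field: Rankin-Selberg sums compared with the number of primes. -/

set_option autoImplicit false

open Complex MeasureTheory Set Filter Topology NumberField IsDedekindDomain
open Pool.Agent.W189.TP (DS DS_diff DS_norm_le summ_mono)
open Pool.Agent.TH861.GL3 (PL qq two_le_qq summable_qq)
open Pool.Agent.TH949.TX (VV VV_diff VV_real VV_one)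

namespace Pool.Agent.Q12.WN

variable {K : Type*} [Field K] [NumberField K] {S : Finset (HeightOneSpectrum (𝓞 K))} {n : ℕ}

/-- Properties of an isobaric sum `Π` of unitary cuspidal automorphic representations of groups `GL_m` over the number
field `K`, where `L(s, Π × Π~)` has a pole of order `r` at `s = 1`: `α v` are the Satake parameters at `v ∉ S`, `β v`
the reciprocal roots of the local factor of `L(s, Π × Π~)` at `v ∈ S`, `κ` the parameters of its Gamma factor. -/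
structure IsobaricRepK (S : Finset (HeightOneSpectrum (𝓞 K))) (r : ℕ) (α : PL S → Fin n → ℂ)
    (β : HeightOneSpectrum (𝓞 K) → Fin (n ^ 2) → ℂ) (κ : Fin (n ^ 2 * Module.finrank ℚ K) → ℂ) : Prop where
  /-- the Satake parameters are nonzero -/
  ne_zero : ∀ v i, α v i ≠ 0
  /-- `Π_v` is unitary -/
  unitary : ∀ v, ∃ τ : Equiv.Perm (Fin n), ∀ i, α v (τ i) = ((starRingEnd ℂ) (α v i))⁻¹
  /-- absolute convergence of `L(s, Π × Π~)` for `Re s > 1` -/
  summable : ∀ σ : ℝ, 1 < σ → Summable fun x : PL S × ℕ =>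
    ‖∑ i, α x.1 i ^ (x.2 + 1)‖ ^ 2 / ((x.2 : ℝ) + 1) * (((qq x.1.1 : ℕ) : ℝ) ^ (-σ)) ^ (x.2 + 1)
  /-- `L(s, Π × Π~) = G(s) / (s - 1)^r`, and `Ξ(s) = s^r (s - 1)^r Q^s ∏ Γ_ℝ(s + κ_j) L(s, Π × Π~)` is entire -/
  continuation : ∃ (G Ξ : ℂ → ℂ) (Q : ℝ), Differentiable ℂ G ∧ Differentiable ℂ Ξ ∧ 0 < Q ∧
    (∀ s : ℂ, 1 < s.re → G s * badK S β s = (s - 1) ^ r * Complex.exp (logK (fun _ => 1) (tr2 α) s)) ∧
    ∀ s : ℂ, 1 < s.re → Ξ s = s ^ r * G s * ((Q : ℂ) ^ s * ∏ j, Complex.Gammaℝ (s + κ j))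

/-- `χ` is a function with `|χ(v)| ≤ 1`, and `(s - 1)^e L^S(s, Π × Π~ × χ)` is entire. -/
structure TwistK (α : PL S → Fin n → ℂ) (χ : PL S → ℂ) (e : ℕ) : Prop where
  norm : ∀ v, ‖χ v‖ ≤ 1
  twist : ∃ U : ℂ → ℂ, Differentiable ℂ U ∧
    ∀ s : ℂ, 1 < s.re → U s = (s - 1) ^ e * Complex.exp (logK χ (tr2 α) s)

open scoped Classical in
/-- **Comparison with the number of primes.** -/
theorem nf_pi {r : ℕ} {α : PL S → Fin n → ℂ} {β : HeightOneSpectrum (𝓞 K) → Fin (n ^ 2) → ℂ}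
    {κ : Fin (n ^ 2 * Module.finrank ℚ K) → ℂ} (h : IsobaricRepK S r α β κ) {c : ℝ} (hc : 1 / 2 ≤ c)
    {ι : Type*} [Fintype ι] {χ : ι → PL S → ℂ} {e : ι → ℕ} {j₀ : ι} (hj₀ : ∀ v, χ j₀ v = 1)
    (hχ : ∀ j, ((∀ v, χ j v = 1) ∧ e j = r) ∨ (j ≠ j₀ ∧ TwistK α (χ j) (e j)))
    (hw : ∀ (v : PL S) (k : ℕ), ∃ w : ℝ, 0 ≤ w ∧ ∑ j, χ j v ^ (k + 1) = (w : ℂ))
    (hv : BadPlace S α β κ c ∨ ∃ (F : ℂ → ℂ) (ρ : ℂ), MeromorphicOn F univ ∧
      (∀ s : ℂ, 1 < s.re → F s * riemannZeta s ^ (∑ j, e j) = cexp (∑ j, logK (χ j) (tr2 α) s)) ∧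
      c < ρ.re ∧ meromorphicOrderAt F ρ ≠ 0)
    {δ : ℝ} (hδ : 0 < δ) (A : ℝ) :
    ∀ᶠ X : ℝ in atTop, ∃ x : ℝ, X ^ (1 - δ) ≤ x ∧ x ≤ X ∧
      (∑' v : PL S, if (qq v.1 : ℝ) ≤ x then (∑ j, χ j v).re * ‖∑ i, α v i‖ ^ 2 else 0) + A * x ^ c ≤
        (∑ j, e j : ℕ) * (Nat.primeCounting ⌊x⌋₊ : ℝ) := by
  have : Countable (HeightOneSpectrum (𝓞 K)) := Pool.Agent.TH861.GL3.countable_primes K
  obtain ⟨G, Ξ, Q, hG, hΞ, hQ, hE, hid⟩ := h.continuation
  choose w0 hw0 hw1 using hw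
  have hbd := badK_diff (S := S) β
  have hex : ∀ j, ∃ (U : ℂ → ℂ), TwU (fun v : PL S => (qq v.1 : ℝ)) (e j) (χ j) α U ∧
      (j = j₀ → ∀ s, U s = G s * badK S β s) := by
    intro j
    rcases hχ j with ⟨hj, he⟩ | ⟨hj, h1⟩
    · have hj' : χ j = fun _ => 1 := funext hj
      refine ⟨fun s => G s * badK S β s, ⟨hG.mul hbd, fun s hs => ?_⟩, fun _ s => rfl⟩
      rw [hE s hs, logK_eq, hj', he]
      rfl
    · obtain ⟨U, hU, hU1⟩ := h1.twist
      refine ⟨U, ⟨hU, fun s hs => ?_⟩, fun h2 => absurd h2 hj⟩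
      rw [hU1 s hs, logK_eq]
      rfl
  choose U hT hUj using hex
  have hwt : Wt (ι := ι) (fun j (v : PL S) => χ j v) w0 :=
    { le_one := fun j v => by
        rcases hχ j with ⟨h1, -⟩ | ⟨-, h1⟩
        · rw [h1 v, norm_one]
        · exact h1.norm v
      eq := fun v k => hw1 v k
      nonneg := fun v k => hw0 v k
      triv := ⟨j₀, hj₀⟩ }
  have hsum : ∀ σ : ℝ, 1 < σ → Summable fun x : PL S × ℕ =>
      ‖∑ i, α x.1 i ^ (x.2 + 1)‖ ^ 2 / ((x.2 : ℝ) + 1) * ((fun v : PL S => (qq v.1 : ℝ)) x.1 ^ (-σ)) ^ (x.2 + 1) :=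
    fun σ hσ => h.summable σ hσ
  have key := vs_pi (P := PL S) (psysK S) hwt h.ne_zero h.unitary hsum hT hc (by
    rcases hv with (hv | ⟨v, hvS, i, x, hx, hcx⟩ | ⟨j, x, hx, hcx⟩) | ⟨F, ρ, hF, hFE, hρ, ho⟩
    · exact Or.inl hv
    · refine Or.inr (Or.inl ⟨j₀, x, hcx, ?_⟩)
      rw [hUj j₀ rfl, badK_zero hvS hx, mul_zero]
    · refine Or.inr (Or.inl ⟨j₀, x, hcx, ?_⟩)
      rw [hUj j₀ rfl, xi_zero hQ hG hΞ r hid hx (by linarith), zero_mul]
    · refine Or.inr (Or.inr ⟨ρ, hρ, ?_⟩)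
      have dU : Differentiable ℂ fun s => ∏ j, U j s := Differentiable.fun_finsetProd fun j _ => (hT j).dU
      have dV : Differentiable ℂ fun s => VV ∅ s ^ (∑ j, e j) := (VV_diff ∅).pow _
      have hF0 : MeromorphicOn (fun s => (∏ j, U j s) / VV ∅ s ^ (∑ j, e j)) univ := fun s _ =>
        (dU.analyticAt s).meromorphicAt.div (dV.analyticAt s).meromorphicAt
      rw [← Pool.Agent.TH949.TX.order_eq hF hF0 (fun s hs => ?_) ρ]
      · exact ho
      · have hs1 : s ≠ 1 := by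
          rintro rfl
          simp at hs
        have h2 : (s - 1) ^ (∑ j, e j) ≠ 0 := pow_ne_zero _ (sub_ne_zero.2 hs1)
        have h3 : riemannZeta s ^ (∑ j, e j) ≠ 0 := pow_ne_zero _ (riemannZeta_ne_zero_of_one_le_re hs.le)
        have hb : Pool.Agent.W189.TP.bad ∅ (fun _ (_ : Fin 1) => (1 : ℂ)) s = 1 := by
          unfold Pool.Agent.W189.TP.bad
          simp
        have hV : VV ∅ s = (s - 1) * riemannZeta s := by
          unfold VV
          rw [Pool.Agent.H437R2.z1_of_ne hs1, hb, mul_one]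
        have hU : ∏ j, U j s = (s - 1) ^ (∑ j, e j) * cexp (∑ j, logK (χ j) (tr2 α) s) := by
          rw [Finset.prod_congr rfl fun j _ => (hT j).eU s hs, Finset.prod_mul_distrib, Finset.prod_pow_eq_pow_sum,
            Complex.exp_sum]
          congr 1
          refine Finset.prod_congr rfl fun j _ => ?_
          rw [logK_eq]
          rfl
        rw [hU, ← hFE s hs, hV, mul_pow]
        field_simp) hδ A
  filter_upwards [key] with X hX
  obtain ⟨x, h1, h2, h3⟩ := hX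
  refine ⟨x, h1, h2, ?_⟩
  refine le_trans (le_of_eq ?_) h3
  congr 1
  refine tsum_congr fun v => ?_
  have e1 : (∑ j, χ j v).re = w0 v 0 := by
    have := hw1 v 0
    simp only [zero_add, pow_one] at this
    rw [this, Complex.ofReal_re]
  rw [e1]

end Pool.Agent.Q12.WN
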